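import Pool.Agent.Lib.BFE.Y2

set_option autoImplicit false
set_option linter.unusedSectionVars false

open Finset
open scoped Classical

namespace Pool.Agent.Lib.H84S

open Pool.Agent.Lib.BFE

/-- Chunk A1 (M): **the nibble for the edges outside the special graph**, with protected colours.

`χ` is the colouring of the large edges, `E'` the edges to be coloured (with the large ones), `Z v` the protected
colours. The result: a proper colouring of `E'` that extends `χ`, and in which the other edges avoid the protected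
colours of their vertices.

**Proof.** `N` from `n12_nibble Ks (1/(4n)) (1/(2 * 10^10))`. Let `U = E'.filter (χ e = none)`, `ι = {e // e ∈ U}`, `vt e = e`,
`L e = (y2_L E D χ e) \ ⋃_{v ∈ e} Z v`. `|L e| ≥ |y2_L| - Ks * 2 p D ≥ |y2_L| - D / (8 n 10^10) ≥ (1 - 1/(8n)) |y2_L|` (`hp`, `D ≤ 10^10 |y2_L|`),
so `|L e| ≥ D / (2 * 10^10)` and `1 / |L e| ≤ (1 / |y2_L|) / (1 - 1/(8n))`; the load at `v` is at most `(1 - 1/(2n)) / (1 - 1/(8n)) ≤
1 - 1/(4n)`. (If `D = 0` everything is trivial; `N ≥ 1`.) `φ` from the nibble; colour `e ∈ U` by `φ e`, the others by `χ`.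
Properness as at the end of the proof of `BFE.y2_main` (`y2_sum`, `y2_L`: the colours of `L e` are not on coloured
neighbours of `e` in `E`). -/
theorem a1_nibble (n Ks : ℕ) (hn : 1 ≤ n) (hKs : 1 ≤ Ks) (p : ℝ) (hp0 : 0 ≤ p)
    (hp : 16 * 10 ^ 10 * (n : ℝ) * Ks * p ≤ 1) : ∃ N : ℕ, 1 ≤ N ∧
    ∀ (V : Type) [DecidableEq V] (E E' : Finset (Finset V)) (D : ℕ), N ≤ D → E' ⊆ E →
    (∀ e ∈ E, ∀ f ∈ E, e ≠ f → (e ∩ f).card ≤ 1) →
    ∀ (χ : Finset V → Option (Fin D)) (Z : V → Finset (Fin D)),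
    Proper Nb χ → (∀ f, χ f ≠ none → f ∈ E) →
    (∀ e ∈ E', χ e = none → e.card ≤ Ks ∧ D ≤ 10 ^ 10 * (y2_L E D χ e).card) →
    (∀ v, ∑ e ∈ (E'.filter fun e => χ e = none).filter (fun e => v ∈ e),
          1 / ((y2_L E D χ e).card : ℝ) ≤ 1 - 1 / (2 * n)) →
    (∀ v, ((Z v).card : ℝ) ≤ 2 * p * D) →
    ∃ c : Finset V → Fin D, (∀ e ∈ E', ∀ f ∈ E', e ≠ f → ¬ Disjoint e f → c e ≠ c f) ∧
      (∀ e ∈ E', ∀ a, χ e = some a → c e = a) ∧
      (∀ e ∈ E', χ e = none → ∀ v ∈ e, c e ∉ Z v) := by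
  have hnr : (1 : ℝ) ≤ n := by exact_mod_cast hn
  have hnr0 : (0 : ℝ) < n := by linarith
  have hε : (0 : ℝ) < 1 / (4 * n) := by positivity
  have hε1 : (1 : ℝ) / (4 * n) ≤ 1 := by
    rw [div_le_one (by positivity)]
    linarith
  obtain ⟨N, hN, hnib⟩ := n12_nibble Ks (1 / (4 * n)) (1 / (2 * 10 ^ 10)) hKs hε hε1 (by positivity)
  refine ⟨N, hN, ?_⟩
  intro V _ E E' D hD hEE hlin χ Z hprop hχE hsz hload hZ
  have hD1 : 1 ≤ D := hN.trans hD
  have hDr : (1 : ℝ) ≤ D := by exact_mod_cast hD1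
  obtain ⟨U, hU⟩ : ∃ U : Finset (Finset V), U = E'.filter fun e => χ e = none := ⟨_, rfl⟩
  have hU0 : ∀ e ∈ U, e ∈ E' ∧ χ e = none := fun e he => by
    rw [hU, mem_filter] at he
    exact he
  have hU1 : ∀ e ∈ E', e ∉ U → χ e ≠ none := fun e he he' h => he' (by
    rw [hU, mem_filter]
    exact ⟨he, h⟩)
  obtain ⟨L, hL⟩ : ∃ L : Finset V → Finset (Fin D), L = fun e => (y2_L E D χ e) \ e.biUnion Z := ⟨_, rfl⟩
  have hLc : ∀ e ∈ U, (1 - 1 / (8 * (n : ℝ))) * ((y2_L E D χ e).card : ℝ) ≤ ((L e).card : ℝ) ∧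
      (D : ℝ) ≤ 10 ^ 10 * ((y2_L E D χ e).card : ℝ) := by
    intro e he
    obtain ⟨h1, h2⟩ := hsz e (hU0 e he).1 (hU0 e he).2
    have h3 : (D : ℝ) ≤ 10 ^ 10 * ((y2_L E D χ e).card : ℝ) := by exact_mod_cast h2
    refine ⟨?_, h3⟩
    have h4 : ((y2_L E D χ e).card : ℝ) - ((e.biUnion Z).card : ℝ) ≤ ((L e).card : ℝ) := by
      have h5 := card_le_card_sdiff_add_card (s := y2_L E D χ e) (t := e.biUnion Z)
      rw [hL]
      have h6 : ((y2_L E D χ e).card : ℝ) ≤ (((y2_L E D χ e) \ e.biUnion Z).card : ℝ) + ((e.biUnion Z).card : ℝ) := by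
        exact_mod_cast h5
      linarith
    have h5 : ((e.biUnion Z).card : ℝ) ≤ (Ks : ℝ) * (2 * p * D) := by
      calc ((e.biUnion Z).card : ℝ) ≤ ((∑ v ∈ e, (Z v).card : ℕ) : ℝ) := by exact_mod_cast card_biUnion_le
        _ = ∑ v ∈ e, ((Z v).card : ℝ) := by push_cast; rfl
        _ ≤ ∑ _v ∈ e, (2 * p * D) := sum_le_sum fun v _ => hZ v
        _ = (e.card : ℝ) * (2 * p * D) := by rw [sum_const, nsmul_eq_mul]
        _ ≤ (Ks : ℝ) * (2 * p * D) := by
            have : (e.card : ℝ) ≤ Ks := by exact_mod_cast h1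
            have h0 : 0 ≤ 2 * p * (D : ℝ) := by positivity
            exact mul_le_mul_of_nonneg_right this h0
    have h6 : (Ks : ℝ) * (2 * p * D) ≤ 1 / (8 * (n : ℝ)) * ((y2_L E D χ e).card : ℝ) := by
      rw [one_div, inv_mul_eq_div, le_div_iff₀ (by positivity)]
      have h7 : 16 * 10 ^ 10 * (n : ℝ) * Ks * p * (D : ℝ) ≤ 1 * D := mul_le_mul_of_nonneg_right hp (by linarith)
      nlinarith
    linarith
  have h78 : (7 : ℝ) / 8 ≤ 1 - 1 / (8 * (n : ℝ)) := by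
    have : 1 / (8 * (n : ℝ)) ≤ 1 / 8 := by
      apply one_div_le_one_div_of_le (by norm_num)
      linarith
    linarith
  have hload2 : ∀ v, ∑ i ∈ (univ : Finset {e // e ∈ U}).filter (fun i => v ∈ i.1),
      1 / ((L i.1).card : ℝ) ≤ 1 - 1 / (4 * n) := by
    intro v
    rw [y2_sum U v (fun e => 1 / ((L e).card : ℝ))]
    have h1 : ∀ e ∈ U.filter (fun e => v ∈ e), 1 / ((L e).card : ℝ) ≤
        (1 / (1 - 1 / (8 * (n : ℝ)))) * (1 / ((y2_L E D χ e).card : ℝ)) := by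
      intro e he
      obtain ⟨h2, h3⟩ := hLc e (mem_filter.1 he).1
      have h4 : (0 : ℝ) < ((y2_L E D χ e).card : ℝ) := by
        by_contra hc
        rw [not_lt] at hc
        nlinarith
      have h5 : 0 < (1 - 1 / (8 * (n : ℝ))) * ((y2_L E D χ e).card : ℝ) := mul_pos (by linarith) h4
      calc 1 / ((L e).card : ℝ) ≤ 1 / ((1 - 1 / (8 * (n : ℝ))) * ((y2_L E D χ e).card : ℝ)) :=
            one_div_le_one_div_of_le h5 h2
        _ = _ := by rw [one_div_mul_one_div]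
    have h2 := sum_le_sum h1
    rw [← mul_sum] at h2
    have h3 := hload v
    rw [← hU] at h3
    have h4 : (0 : ℝ) < 1 - 1 / (8 * (n : ℝ)) := by linarith
    refine h2.trans ?_
    calc (1 / (1 - 1 / (8 * (n : ℝ)))) * ∑ e ∈ U.filter (fun e => v ∈ e), 1 / ((y2_L E D χ e).card : ℝ)
        ≤ (1 / (1 - 1 / (8 * (n : ℝ)))) * (1 - 1 / (2 * n)) :=
          mul_le_mul_of_nonneg_left h3 (by positivity)
      _ ≤ 1 - 1 / (4 * n) := by
          rw [one_div_mul_eq_div, div_le_iff₀ h4]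
          have h5 : (1 - 1 / (4 * (n : ℝ))) * (1 - 1 / (8 * (n : ℝ))) - (1 - 1 / (2 * (n : ℝ))) =
              1 / (8 * n) + 1 / (32 * n ^ 2) := by
            field_simp
            ring
          have h6 : 0 ≤ 1 / (8 * (n : ℝ)) + 1 / (32 * (n : ℝ) ^ 2) := by positivity
          linarith
  obtain ⟨φ, hφ1, hφ2⟩ := hnib {e // e ∈ U} V (Fin D) (fun i => i.1) (fun i => L i.1)
    (by rw [Fintype.card_fin]; exact hD)
    ⟨fun i => (hsz i.1 (hU0 i.1 i.2).1 (hU0 i.1 i.2).2).1,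
      fun i j hij => hlin i.1 (hEE (hU0 i.1 i.2).1) j.1 (hEE (hU0 j.1 j.2).1) fun h => hij (Subtype.ext h)⟩
    (fun i => by
      rw [Fintype.card_fin]
      obtain ⟨h2, h3⟩ := hLc i.1 i.2
      have h4 : (7 : ℝ) / 8 * ((y2_L E D χ i.1).card : ℝ) ≤ ((L i.1).card : ℝ) :=
        (mul_le_mul_of_nonneg_right h78 (Nat.cast_nonneg _)).trans h2
      rw [div_mul_eq_mul_div, one_mul, div_le_iff₀ (by positivity)]
      nlinarith) hload2
  have hDp : 0 < D := hD1
  have hget : ∀ e, ∀ c : Fin D, χ e = some c → (χ e).getD ⟨0, hDp⟩ = c := fun e c h => by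
    rw [h]
    rfl
  have hφL : ∀ e (he : e ∈ U), φ ⟨e, he⟩ ∈ y2_L E D χ e ∧ φ ⟨e, he⟩ ∉ e.biUnion Z := by
    intro e he
    have h1 := hφ1 ⟨e, he⟩
    rw [hL] at h1
    exact mem_sdiff.1 h1
  have hmix : ∀ e ∈ E', ∀ f ∈ E', e ≠ f → ¬ Disjoint e f → ∀ he : e ∈ U, f ∉ U →
      φ ⟨e, he⟩ ≠ (χ f).getD ⟨0, hDp⟩ := by
    intro e _ f hf hne hd he hfU heq
    obtain ⟨c, hc⟩ := Option.ne_none_iff_exists'.1 (hU1 f hf hfU)
    rw [hget f c hc] at heq
    have h1 := (hφL e he).1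
    unfold y2_L at h1
    rw [mem_filter] at h1
    refine h1.2 f (hEE hf) ⟨hne, hd⟩ ?_
    rw [heq]
    exact hc
  refine ⟨fun e => if h : e ∈ U then φ ⟨e, h⟩ else (χ e).getD ⟨0, hDp⟩, ?_, ?_, ?_⟩
  · intro e he f hf hne hd
    by_cases heU : e ∈ U
    · by_cases hfU : f ∈ U
      · simp only [dif_pos heU, dif_pos hfU]
        exact hφ2 ⟨e, heU⟩ ⟨f, hfU⟩ ⟨fun h => hne (congrArg Subtype.val h), hd⟩
      · simp only [dif_pos heU, dif_neg hfU]
        exact hmix e he f hf hne hd heU hfU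
    · by_cases hfU : f ∈ U
      · simp only [dif_neg heU, dif_pos hfU]
        exact fun h => hmix f hf e he hne.symm (fun h => hd h.symm) hfU heU h.symm
      · simp only [dif_neg heU, dif_neg hfU]
        intro h
        obtain ⟨c, hc⟩ := Option.ne_none_iff_exists'.1 (hU1 e he heU)
        obtain ⟨c', hc'⟩ := Option.ne_none_iff_exists'.1 (hU1 f hf hfU)
        rw [hget e c hc, hget f c' hc'] at h
        refine hprop e f ⟨hne, hd⟩ (hU1 e he heU) ?_
        rw [hc, hc', h]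
  · intro e he a ha
    have heU : e ∉ U := fun h => by
      have h1 := (hU0 e h).2
      rw [ha] at h1
      exact Option.some_ne_none a h1
    simp only [dif_neg heU]
    exact hget e a ha
  · intro e he hnone v hv hmem
    have heU : e ∈ U := by
      rw [hU, mem_filter]
      exact ⟨he, hnone⟩
    simp only [dif_pos heU] at hmem
    exact (hφL e heU).2 (mem_biUnion.2 ⟨v, hv, hmem⟩)

end Pool.Agent.Lib.H84S
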