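import Pool.Agent.Lib.H84S.A2Defs

set_option autoImplicit false
set_option linter.unusedSectionVars false

open Finset
open scoped Classical

namespace Pool.Agent.Lib.H84S

open Pool.Agent.Lib.BFE

variable {V : Type} [Fintype V] [DecidableEq V]

/-- Chunk A2 (S/M): degrees outside the special graph.

**Proof.** The edges `{b, y}`, `y ∈ G b`, are `|G b|` different edges of `E` at `b` that are not in `rest E G`; so
`deg_rest b + |G b| ≤ deg_E b`, and `deg_E b ≤ ∑ (|e| - 1) ≤ D - 1` (`Hyp.size`, `Hyp.vol`). -/
theorem a2_deg {E : Finset (Finset V)} {D : ℕ} (H : Hyp E D) (G : V → Finset V)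
    (hG : ∀ b, ∀ y ∈ G b, ({b, y} : Finset V) ∈ E ∧ b ≠ y) (b : V) :
    ((rest E G).filter fun e => b ∈ e).card + (G b).card ≤ D - 1 := by
  classical
  have h1 : ((G b).image fun y => ({b, y} : Finset V)).card = (G b).card := by
    apply card_image_of_injOn
    intro y hy y' hy' h
    have hby := (hG b y hy).2
    have hy1 : y ∈ ({b, y'} : Finset V) := by
      have h2 : ({b, y} : Finset V) = {b, y'} := h
      rw [← h2]
      simp
    rw [mem_insert, mem_singleton] at hy1
    rcases hy1 with h3 | h3
    · exact absurd h3.symm hby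
    · exact h3
  have h2 : Disjoint ((rest E G).filter fun e => b ∈ e) ((G b).image fun y => ({b, y} : Finset V)) := by
    rw [disjoint_left]
    intro e he hi
    rw [mem_filter, rest, mem_filter] at he
    rw [mem_image] at hi
    obtain ⟨y, hy, rfl⟩ := hi
    exact he.1.2 ⟨b, y, hy, rfl⟩
  have h3 : ((rest E G).filter fun e => b ∈ e) ∪ ((G b).image fun y => ({b, y} : Finset V))
      ⊆ E.filter fun e => b ∈ e := by
    intro e he
    rw [mem_union] at he
    rcases he with he | he
    · rw [mem_filter, rest, mem_filter] at he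
      exact mem_filter.2 ⟨he.1.1, he.2⟩
    · rw [mem_image] at he
      obtain ⟨y, hy, rfl⟩ := he
      exact mem_filter.2 ⟨(hG b y hy).1, by simp⟩
  have h4 := card_le_card h3
  rw [card_union_of_disjoint h2, h1] at h4
  have h5 : (E.filter fun e => b ∈ e).card ≤ ∑ e ∈ E.filter (fun e => b ∈ e), (e.card - 1) := by
    rw [card_eq_sum_ones]
    apply sum_le_sum
    intro e he
    have := H.size e (mem_filter.1 he).1
    omega
  exact h4.trans (h5.trans (H.vol b))

end Pool.Agent.Lib.H84S
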