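import Mathlib

/-!
# H84S (Berge-Fueredi with vertices of high 2-degree): definitions for the exchange lemma

Plan of the project: `PROOF.md`.
-/

set_option autoImplicit false
set_option linter.unusedSectionVars false

open Finset
open scoped Classical

namespace Pool.Agent.Lib.H84S

variable {β τ C : Type} [Fintype β] [DecidableEq β] [Fintype τ] [DecidableEq τ] [Fintype C]
  [DecidableEq C]

/-- `φ` is a partial colouring of the pairs `(b, y) ∈ Γ`: two coloured pairs with a common end have different
colours, pairs at `b` avoid the colours in `FB b`, pairs at `y` avoid the colours in `FT y` -/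
structure Valid (Γ : Finset (β × τ)) (FB : β → Finset C) (FT : τ → Finset C)
    (φ : β × τ → Option C) : Prop where
  dom : ∀ e, φ e ≠ none → e ∈ Γ
  left : ∀ b y y' c, φ (b, y) = some c → φ (b, y') = some c → y = y'
  right : ∀ b b' y c, φ (b, y) = some c → φ (b', y) = some c → b = b'
  fb : ∀ b y c, φ (b, y) = some c → c ∉ FB b
  ft : ∀ b y c, φ (b, y) = some c → c ∉ FT y

/-- the number of coloured pairs -/
noncomputable def num (φ : β × τ → Option C) : ℕ := (univ.filter fun e => φ e ≠ none).card

/-- the colour `c` is missing at `b` -/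
def MissB (FB : β → Finset C) (φ : β × τ → Option C) (b : β) (c : C) : Prop :=
  c ∉ FB b ∧ ∀ y, φ (b, y) ≠ some c

/-- the colour `c` is missing at `y` -/
def MissT (FT : τ → Finset C) (φ : β × τ → Option C) (y : τ) (c : C) : Prop :=
  c ∉ FT y ∧ ∀ b, φ (b, y) ≠ some c

/-- a valid partial colouring in which the pair `(b, w) ∈ Γ` is not coloured (the hole) and the colour `a` is
missing at `b` -/
structure St (Γ : Finset (β × τ)) (FB : β → Finset C) (FT : τ → Finset C) (a : C)
    (φ : β × τ → Option C) (b : β) (w : τ) : Prop where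
  valid : Valid Γ FB FT φ
  mem : (b, w) ∈ Γ
  hole : φ (b, w) = none
  miss : MissB FB φ b a

/-- the hole `e` gets the colour `c` and `f` becomes the hole -/
def mv (φ : β × τ → Option C) (e f : β × τ) (c : C) : β × τ → Option C :=
  Function.update (Function.update φ e (some c)) f none

/-- the colourings and holes that can be reached from `φ₀, b₀, w₀` by fan moves (at `b`: the colour `c ≠ a` of
`(b, y)` is missing at `w`, the hole moves from `(b, w)` to `(b, y)`) and `a`-moves (the hole `(b, w)` gets the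
colour `a`, the pair `(b', w)` of colour `a` becomes the hole) -/
inductive Reach (FT : τ → Finset C) (a : C) (φ₀ : β × τ → Option C) (b₀ : β) (w₀ : τ) :
    (β × τ → Option C) → β → τ → Prop
  | base : Reach FT a φ₀ b₀ w₀ φ₀ b₀ w₀
  | fan (φ : β × τ → Option C) (b : β) (w y : τ) (c : C) : Reach FT a φ₀ b₀ w₀ φ b w →
      MissT FT φ w c → φ (b, y) = some c → Reach FT a φ₀ b₀ w₀ (mv φ (b, w) (b, y) c) b y
  | alt (φ : β × τ → Option C) (b b' : β) (w : τ) : Reach FT a φ₀ b₀ w₀ φ b w →
      a ∉ FT w → φ (b', w) = some a → Reach FT a φ₀ b₀ w₀ (mv φ (b, w) (b', w) a) b' w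

/-- the hypotheses of the exchange lemma: `W b` and `Z y` are protected colours, `m` bounds the degrees at the
`τ`-ends; every `b` has at least as many colours as edges -/
structure Ex (Γ : Finset (β × τ)) (FB : β → Finset C) (FT : τ → Finset C) (W : β → Finset C)
    (Z : τ → Finset C) (m q r : ℕ) : Prop where
  wb : ∀ b, Disjoint (W b) (FB b)
  zt : ∀ e ∈ Γ, Disjoint (Z e.2) (FT e.2)
  deg : ∀ b, (FB b).card + (Γ.filter fun e => e.1 = b).card ≤ Fintype.card C
  degT : ∀ y, (Γ.filter fun e => e.2 = y).card ≤ m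
  wz : ∀ e ∈ Γ, q + m ≤ (W e.1 ∩ Z e.2).card
  many : ∀ e ∈ Γ, ∀ a : C, a ∉ FB e.1 → r ≤ (Γ.filter fun f => f.1 = e.1 ∧ a ∈ Z f.2).card
  expd : ∀ b, ∀ Y : Finset τ, ∀ Q : Finset C, (∀ y ∈ Y, (b, y) ∈ Γ) → q ≤ Y.card → q ≤ Q.card →
    ∃ y ∈ Y, m < (Z y ∩ Q).card
  big : 2 * q + m ≤ r

end Pool.Agent.Lib.H84S
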