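import Pool.Agent.Lib.H84S.A2
import Pool.Agent.Lib.H84S.Defs

set_option autoImplicit false
set_option linter.unusedSectionVars false

open Finset
open scoped Classical

namespace Pool.Agent.Lib.H84S

open Pool.Agent.Lib.BFE

variable {V : Type} [Fintype V] [DecidableEq V]

/-- Chunk A2, second part (M): the hypotheses of the exchange lemma.

Here `χ` is the colouring of the large edges (phase 1), `c` the colouring of `rest E G` from `a1_nibble`, `Z` the random
sets, `P v` the complement of the colours of the large edges at `v`.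

**Proof.** `FB = FT = cols (rest E G) c`, `W b = Z b ∩ P b`. `wb`: a colour `a ∈ Z b` with `a = c e`, `e ∈ rest`, `b ∈ e`: if `χ e = none`
then `c e ∉ Z b` (`hc3`); otherwise `χ e = some (c e)` (`hc2`) and `c e ∉ P b` (`hP`). `zt`: for `y ∈ G b` no edge at `y` is coloured by
`χ` (`hy`), so `hc3`. `deg`: `|cols b| ≤ deg_rest b`, the pairs `(b, y)` of `prs G` are `|G b|` many, `a2_deg`. `degT`: `hm`.
`wz`: `hwz`. `many`: `hmany` (the pairs `f` with `f.1 = b`, `a ∈ Z f.2` correspond to `y ∈ G b`, `a ∈ Z y`). `expd`: `hexp`. -/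
theorem a2_ex {E : Finset (Finset V)} {D : ℕ} (H : Hyp E D) (G : V → Finset V)
    (hG : ∀ b, ∀ y ∈ G b, ({b, y} : Finset V) ∈ E ∧ b ≠ y) (χ : Finset V → Option (Fin D))
    (c : Finset V → Fin D) (Z P : V → Finset (Fin D))
    (hP : ∀ v, ∀ a ∈ P v, ∀ e ∈ E, v ∈ e → χ e ≠ some a)
    (hc2 : ∀ e ∈ rest E G, ∀ a, χ e = some a → c e = a)
    (hc3 : ∀ e ∈ rest E G, χ e = none → ∀ v ∈ e, c e ∉ Z v)
    (hy : ∀ b, ∀ y ∈ G b, ∀ e ∈ E, y ∈ e → χ e = none) (m q r : ℕ)
    (hm : ∀ y, (univ.filter fun b => y ∈ G b).card ≤ m)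
    (hwz : ∀ b, ∀ y ∈ G b, q + m ≤ (Z b ∩ P b ∩ Z y).card)
    (hmany : ∀ b, (G b).Nonempty → ∀ a, r ≤ ((G b).filter fun y => a ∈ Z y).card)
    (hexp : ∀ b, ∀ Y ⊆ G b, ∀ Q : Finset (Fin D), q ≤ Y.card → q ≤ Q.card → ∃ y ∈ Y, m < (Z y ∩ Q).card)
    (hbig : 2 * q + m ≤ r) :
    Ex (prs G) (cols (rest E G) c) (cols (rest E G) c) (fun b => Z b ∩ P b) Z m q r := by
  classical
  have hmem : ∀ e : V × V, e ∈ prs G ↔ e.2 ∈ G e.1 := fun e => by simp [prs]
  refine ⟨?_, ?_, ?_, ?_, ?_, ?_, ?_, hbig⟩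
  · intro b
    rw [Finset.disjoint_left]
    intro a ha hac
    obtain ⟨haZ, haP⟩ := mem_inter.1 ha
    obtain ⟨e, he, rfl⟩ := mem_image.1 hac
    obtain ⟨he1, he2⟩ := mem_filter.1 he
    have heE : e ∈ E := (mem_filter.1 he1).1
    rcases hχ : χ e with _ | a'
    · exact hc3 e he1 hχ b he2 haZ
    · have h1 := hc2 e he1 a' hχ
      rw [← h1] at hχ
      exact hP b (c e) haP e heE he2 hχ
  · intro f hf
    rw [Finset.disjoint_left]
    intro a ha hac
    obtain ⟨e, he, rfl⟩ := mem_image.1 hac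
    obtain ⟨he1, he2⟩ := mem_filter.1 he
    have heE : e ∈ E := (mem_filter.1 he1).1
    exact hc3 e he1 (hy f.1 f.2 ((hmem f).1 hf) e heE he2) f.2 he2 ha
  · intro b
    have h1 : (cols (rest E G) c b).card ≤ ((rest E G).filter fun e => b ∈ e).card := card_image_le
    have h2 : ((prs G).filter fun e => e.1 = b).card ≤ (G b).card := by
      refine card_le_card_of_injOn (fun e => e.2) (fun e he => ?_) (fun e he f hf hef => ?_)
      · obtain ⟨h3, h4⟩ := mem_filter.1 he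
        have h5 := (hmem e).1 h3
        rw [h4] at h5
        exact h5
      · obtain ⟨-, h4⟩ := mem_filter.1 he
        obtain ⟨-, h5⟩ := mem_filter.1 hf
        exact Prod.ext (h4.trans h5.symm) hef
    have h3 := a2_deg H G hG b
    rw [Fintype.card_fin]
    omega
  · intro y
    refine le_trans (card_le_card_of_injOn (fun e => e.1) (fun e he => ?_) (fun e he f hf hef => ?_)) (hm y)
    · obtain ⟨h3, h4⟩ := mem_filter.1 he
      have h5 := (hmem e).1 h3
      rw [h4] at h5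
      exact mem_filter.2 ⟨mem_univ _, h5⟩
    · obtain ⟨-, h4⟩ := mem_filter.1 he
      obtain ⟨-, h5⟩ := mem_filter.1 hf
      exact Prod.ext hef (h4.trans h5.symm)
  · intro e he
    exact hwz e.1 e.2 ((hmem e).1 he)
  · intro e he a _
    refine le_trans (hmany e.1 ⟨e.2, (hmem e).1 he⟩ a) ?_
    refine card_le_card_of_injOn (fun y => (e.1, y)) (fun y hy' => ?_) (fun y _ y' _ hyy => ?_)
    · obtain ⟨h3, h4⟩ := mem_filter.1 hy'
      exact mem_filter.2 ⟨(hmem _).2 h3, rfl, h4⟩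
    · exact (Prod.ext_iff.1 hyy).2
  · intro b Y Q hY h1 h2
    exact hexp b Y (fun y hy' => (hmem _).1 (hY y hy')) Q h1 h2

end Pool.Agent.Lib.H84S
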