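import Pool.Agent.Lib.BFE.Y2

set_option autoImplicit false
set_option linter.unusedSectionVars false

open Finset
open scoped Classical

namespace Pool.Agent.Lib.H84S

open Pool.Agent.Lib.BFE

variable {V : Type} [Fintype V] [DecidableEq V]

/-- the edges outside the special graph -/
noncomputable def rest (E : Finset (Finset V)) (G : V → Finset V) : Finset (Finset V) :=
  E.filter fun e => ¬ ∃ b, ∃ y ∈ G b, e = {b, y}

/-- the colours of the edges of `E'` at `v` -/
noncomputable def cols {D : ℕ} (E' : Finset (Finset V)) (c : Finset V → Fin D) (v : V) : Finset (Fin D) :=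
  (E'.filter fun e => v ∈ e).image c

/-- the pairs `(b, y)`, `y ∈ G b` -/
noncomputable def prs (G : V → Finset V) : Finset (V × V) := univ.filter fun e => e.2 ∈ G e.1

end Pool.Agent.Lib.H84S
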