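import Pool.Agent.Lib.H84S.A2Defs
import Pool.Agent.Lib.H84S.Defs

set_option autoImplicit false
set_option linter.unusedSectionVars false

open Finset
open scoped Classical

namespace Pool.Agent.Lib.H84S

open Pool.Agent.Lib.BFE

variable {V : Type} [Fintype V] [DecidableEq V]

/-- Chunk A3 (M): the two colourings together.

**Proof.** Colour `e = {b, y}`, `y ∈ G b`, by the colour of `(b, y)` under `φ` and the edges of `rest E G` by `c`. The pair
`(b, y)` is determined by `e`, because `y ∈ G b` implies that `G b` is nonempty and `G y` is empty (`hB`). Two different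
edges `{b, y}`, `{b', y'}` of the special graph that meet: `b = b'` or `y = y'` (`b = y'` is excluded: `G b` is nonempty and
`G y'` is empty), so different colours by `Valid.left`, `Valid.right`. An edge `{b, y}` and an edge `f` of `rest` that meet:
they meet in `b` or in `y`, and the colour of `f` is in `cols .. b` or in `cols .. y`: `Valid.fb`, `Valid.ft`. Two edges of
`rest`: `hc`. -/
theorem a3_union {E : Finset (Finset V)} {D : ℕ} (hD : 0 < D) (G : V → Finset V)
    (hB : ∀ b, ∀ y ∈ G b, G y = ∅) (c : Finset V → Fin D)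
    (hc : ∀ e ∈ rest E G, ∀ f ∈ rest E G, e ≠ f → ¬ Disjoint e f → c e ≠ c f)
    (φ : V × V → Option (Fin D))
    (hφ : Valid (prs G) (cols (rest E G) c) (cols (rest E G) c) φ) (hφ2 : ∀ e ∈ prs G, φ e ≠ none) :
    ∃ d : Finset V → Fin D, ∀ e ∈ E, ∀ f ∈ E, e ≠ f → ¬ Disjoint e f → d e ≠ d f := by
  classical
  have hmem : ∀ e : V × V, e ∈ prs G ↔ e.2 ∈ G e.1 := fun e => by simp [prs]
  have hbne : ∀ b y y', y ∈ G b → y' ∈ G y → False := by
    intro b y y' h1 h2
    rw [hB b y h1] at h2
    exact notMem_empty _ h2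
  -- the pair is determined by the edge
  have huniq : ∀ b y b' y', y ∈ G b → y' ∈ G b' → ({b, y} : Finset V) = {b', y'} → b = b' ∧ y = y' := by
    intro b y b' y' h1 h2 h3
    have hb : b ∈ ({b', y'} : Finset V) := by rw [← h3]; simp
    have hy : y ∈ ({b', y'} : Finset V) := by rw [← h3]; simp
    have hb' : b' ∈ ({b, y} : Finset V) := by rw [h3]; simp
    rw [mem_insert, mem_singleton] at hb hy hb'
    rcases hb with hb | hb
    · refine ⟨hb, ?_⟩
      rcases hy with hy | hy
      · exfalso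
        rw [hy] at h1
        rw [hb] at h1
        exact hbne b' b' y' h1 h2
      · exact hy
    · exfalso
      rw [hb] at h1
      exact hbne b' y' y h2 h1
  have hcol : ∀ e : V × V, ∃ a : Fin D, e ∈ prs G → φ e = some a := by
    intro e
    by_cases he : e ∈ prs G
    · obtain ⟨a, ha⟩ := Option.ne_none_iff_exists'.1 (hφ2 e he)
      exact ⟨a, fun _ => ha⟩
    · exact ⟨⟨0, hD⟩, fun h => absurd h he⟩
  choose ψ hψ using hcol
  have hd : ∀ e : Finset V, ∃ a : Fin D, (e ∈ rest E G → a = c e) ∧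
      ∀ b y, y ∈ G b → e = {b, y} → a = ψ (b, y) := by
    intro e
    by_cases he : ∃ b, ∃ y ∈ G b, e = {b, y}
    · obtain ⟨b, y, h1, h2⟩ := he
      refine ⟨ψ (b, y), fun h => absurd ⟨b, y, h1, h2⟩ (mem_filter.1 h).2, fun b' y' h3 h4 => ?_⟩
      obtain ⟨h5, h6⟩ := huniq b y b' y' h1 h3 (h2.symm.trans h4)
      rw [h5, h6]
    · exact ⟨c e, fun _ => rfl, fun b y h1 h2 => absurd ⟨b, y, h1, h2⟩ he⟩
  choose d hd1 hd2 using hd
  have hcase : ∀ e ∈ E, e ∈ rest E G ∨ ∃ b y, y ∈ G b ∧ e = {b, y} := by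
    intro e he
    by_cases h : ∃ b, ∃ y ∈ G b, e = {b, y}
    · obtain ⟨b, y, h1, h2⟩ := h
      exact Or.inr ⟨b, y, h1, h2⟩
    · exact Or.inl (mem_filter.2 ⟨he, h⟩)
  -- an edge of the special graph and an edge of the rest
  have hmix : ∀ b y, y ∈ G b → ∀ f ∈ rest E G, ¬ Disjoint ({b, y} : Finset V) f → ψ (b, y) ≠ c f := by
    intro b y h1 f hf hdis heq
    have h2 := hψ (b, y) ((hmem _).2 h1)
    rw [Finset.not_disjoint_iff] at hdis
    obtain ⟨v, hv1, hv2⟩ := hdis
    rw [mem_insert, mem_singleton] at hv1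
    have h3 : c f ∈ cols (rest E G) c v := mem_image.2 ⟨f, mem_filter.2 ⟨hf, hv2⟩, rfl⟩
    rw [← heq] at h3
    rcases hv1 with rfl | rfl
    · exact hφ.fb _ _ _ h2 h3
    · exact hφ.ft _ _ _ h2 h3
  refine ⟨d, fun e he f hf hef hdis => ?_⟩
  rcases hcase e he with h1 | ⟨b, y, h1, rfl⟩
  · rcases hcase f hf with h2 | ⟨b', y', h2, rfl⟩
    · rw [hd1 e h1, hd1 f h2]
      exact hc e h1 f h2 hef hdis
    · rw [hd1 e h1, hd2 _ b' y' h2 rfl]
      exact fun h => hmix b' y' h2 e h1 (fun h3 => hdis h3.symm) h.symm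
  · rcases hcase f hf with h2 | ⟨b', y', h2, rfl⟩
    · rw [hd2 _ b y h1 rfl, hd1 f h2]
      exact hmix b y h1 f h2 hdis
    · rw [hd2 _ b y h1 rfl, hd2 _ b' y' h2 rfl]
      intro heq
      have e1 := hψ (b, y) ((hmem _).2 h1)
      have e2 := hψ (b', y') ((hmem _).2 h2)
      rw [← heq] at e2
      rw [Finset.not_disjoint_iff] at hdis
      obtain ⟨v, hv1, hv2⟩ := hdis
      rw [mem_insert, mem_singleton] at hv1 hv2
      rcases hv1 with hv1 | hv1 <;> rcases hv2 with hv2 | hv2
      · have e3 : b = b' := hv1.symm.trans hv2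
        rw [← e3] at e2 h2
        have e4 := hφ.left b y y' _ e1 e2
        exact hef (by rw [e3, e4])
      · have e3 : b = y' := hv1.symm.trans hv2
        rw [← e3] at h2
        exact hbne b' b y h2 h1
      · have e3 : y = b' := hv1.symm.trans hv2
        rw [← e3] at h2
        exact hbne b y y' h1 h2
      · have e3 : y = y' := hv1.symm.trans hv2
        rw [← e3] at e2 h2
        have e4 := hφ.right b b' y _ e1 e2
        exact hef (by rw [e3, e4])

end Pool.Agent.Lib.H84S
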