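import Pool.Agent.Lib.BFE.MDefs

set_option autoImplicit false
set_option linter.unusedSectionVars false

open Finset
open scoped Classical

namespace Pool.Agent.Lib.H84S

open Pool.Agent.Lib.BFE

variable {V : Type} [Fintype V] [DecidableEq V]

/-- Chunk A3, second part (M): few large edges at a vertex, the colours of large edges at `v`.

**Proof.** `P v` is the complement of the colours of the coloured edges at `v`. They have at least `K0 ≥ 3` vertices,
so by `Hyp.vol` there are at most `(D - 1) / 2` of them. -/
theorem a3_P {E : Finset (Finset V)} {D : ℕ} (H : Hyp E D) (χ : Finset V → Option (Fin D)) (K0 : ℕ)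
    (hK0 : 3 ≤ K0) (hχ : ∀ f, χ f ≠ none → f ∈ E ∧ K0 ≤ f.card) (v : V) :
    D ≤ 2 * (univ.filter fun a : Fin D => ∀ e ∈ E, v ∈ e → χ e ≠ some a).card := by
  set A := univ.filter fun a : Fin D => ∀ e ∈ E, v ∈ e → χ e ≠ some a with hA
  set B := univ.filter fun a : Fin D => ¬ ∀ e ∈ E, v ∈ e → χ e ≠ some a with hB
  set F := E.filter fun e => v ∈ e ∧ χ e ≠ none with hF
  have h1 : A.card + B.card = D := by
    have h := Finset.card_filter_add_card_filter_not (s := (univ : Finset (Fin D)))
      (fun a : Fin D => ∀ e ∈ E, v ∈ e → χ e ≠ some a)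
    rw [Finset.card_univ, Fintype.card_fin] at h
    exact h
  have h2 : B.card ≤ F.card := by
    have h3 : B.image some ⊆ F.image χ := by
      intro x hx
      obtain ⟨a, ha, rfl⟩ := Finset.mem_image.1 hx
      have h4 := (Finset.mem_filter.1 ha).2
      push Not at h4
      obtain ⟨e, he, hv, hc⟩ := h4
      refine Finset.mem_image.2 ⟨e, Finset.mem_filter.2 ⟨he, hv, ?_⟩, hc⟩
      rw [hc]
      exact Option.some_ne_none a
    calc B.card = (B.image some).card := (Finset.card_image_of_injective B (Option.some_injective _)).symm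
      _ ≤ (F.image χ).card := Finset.card_le_card h3
      _ ≤ F.card := Finset.card_image_le
  have h5 : 2 * F.card ≤ ∑ e ∈ E.filter (fun e => v ∈ e), (e.card - 1) := by
    have h6 : F ⊆ E.filter (fun e => v ∈ e) := by
      intro e he
      have h7 := Finset.mem_filter.1 he
      exact Finset.mem_filter.2 ⟨h7.1, h7.2.1⟩
    calc 2 * F.card = ∑ _e ∈ F, 2 := by rw [Finset.sum_const, smul_eq_mul, mul_comm]
      _ ≤ ∑ e ∈ F, (e.card - 1) := by
        refine Finset.sum_le_sum fun e he => ?_
        have h7 := (hχ e (Finset.mem_filter.1 he).2.2).2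
        omega
      _ ≤ ∑ e ∈ E.filter (fun e => v ∈ e), (e.card - 1) := Finset.sum_le_sum_of_subset h6
  have h8 := H.vol v
  have h9 := H.D_pos
  omega

end Pool.Agent.Lib.H84S
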