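import Pool.Agent.Lib.H84S.E4

set_option autoImplicit false
set_option linter.unusedSectionVars false

open Finset
open scoped Classical

namespace Pool.Agent.Lib.H84S

variable {β τ C : Type} [Fintype β] [DecidableEq β] [Fintype τ] [DecidableEq τ] [Fintype C]
  [DecidableEq C] {Γ : Finset (β × τ)} {FB : β → Finset C} {FT : τ → Finset C}

/-- Chunk E4, second part (S/M): **the exchange lemma**.

**Proof.** Take a valid `φ` with `num φ` maximal (the empty colouring is valid; `num` is bounded by the number
of pairs, e.g. `Finite` type `β × τ → Option C`: `exists_max_image`/`Nat.findGreatest`). If `(b, w) ∈ Γ` is not coloured,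
then some colour `a` is missing at `b`: the colours in `FB b` and the colours of the coloured pairs at `b` are at most
`|FB b| + deg b - 1 < |C|` many (`Ex.deg`). So `St` holds and `e4_aug` contradicts the maximality. -/
theorem e4_exchange {W : β → Finset C} {Z : τ → Finset C} {m q r : ℕ} (X : Ex Γ FB FT W Z m q r) :
    ∃ φ : β × τ → Option C, Valid Γ FB FT φ ∧ ∀ e ∈ Γ, φ e ≠ none := by
  have h0 : Valid Γ FB FT (fun _ : β × τ => (none : Option C)) :=
    ⟨fun e h => absurd rfl h, fun b y y' c h => by simp at h, fun b b' y c h => by simp at h,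
      fun b y c h => by simp at h, fun b y c h => by simp at h⟩
  obtain ⟨φ, hφ, hmax⟩ := Finset.exists_max_image
    ((univ : Finset (β × τ → Option C)).filter (fun φ => Valid Γ FB FT φ)) num
    ⟨_, mem_filter.mpr ⟨mem_univ _, h0⟩⟩
  rw [mem_filter] at hφ
  refine ⟨φ, hφ.2, ?_⟩
  rintro ⟨b, w⟩ hbw hnone
  have hv := hφ.2
  set used : Finset C := univ.filter (fun c => ∃ y, φ (b, y) = some c) with hused
  have hle : used.card ≤ ((Γ.filter fun e => e.1 = b).erase (b, w)).card := by
    refine Finset.card_le_card_of_injOn
      (fun c => (b, if h : ∃ y, φ (b, y) = some c then h.choose else w)) ?_ ?_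
    · intro c hc
      have hc' : ∃ y, φ (b, y) = some c := by
        have : c ∈ used := hc
        rw [hused, mem_filter] at this
        exact this.2
      have h1 := hc'.choose_spec
      have h2 : (b, hc'.choose) ∈ (Γ.filter fun e => e.1 = b).erase (b, w) := by
        rw [mem_erase, mem_filter]
        refine ⟨?_, hv.dom _ ?_, rfl⟩
        · intro h3
          rw [h3, hnone] at h1
          exact absurd h1 (by simp)
        · rw [h1]
          simp
      simp only [dif_pos hc']
      exact h2
    · intro c hc c' hc' hcc
      have hc1 : ∃ y, φ (b, y) = some c := by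
        have : c ∈ used := hc
        rw [hused, mem_filter] at this
        exact this.2
      have hc2 : ∃ y, φ (b, y) = some c' := by
        have : c' ∈ used := hc'
        rw [hused, mem_filter] at this
        exact this.2
      simp only [dif_pos hc1, dif_pos hc2] at hcc
      have h1 := hc1.choose_spec
      have h2 := hc2.choose_spec
      rw [(Prod.mk.inj hcc).2, h2] at h1
      exact (Option.some.inj h1).symm
  have hmem : (b, w) ∈ Γ.filter fun e => e.1 = b := mem_filter.mpr ⟨hbw, rfl⟩
  have hpos : 0 < (Γ.filter fun e => e.1 = b).card := Finset.card_pos.mpr ⟨_, hmem⟩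
  have hcard : (FB b ∪ used).card < Fintype.card C := by
    have h1 := Finset.card_union_le (FB b) used
    rw [Finset.card_erase_of_mem hmem] at hle
    have h2 := X.deg b
    omega
  obtain ⟨a, ha⟩ : ∃ a : C, a ∉ FB b ∪ used := by
    by_contra hcon
    push Not at hcon
    have h1 : (univ : Finset C) ⊆ FB b ∪ used := fun a _ => hcon a
    have h2 := Finset.card_le_card h1
    rw [Finset.card_univ] at h2
    omega
  rw [mem_union, not_or] at ha
  have hst : St Γ FB FT a φ b w := by
    refine ⟨hv, hbw, hnone, ha.1, ?_⟩
    intro y hy
    apply ha.2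
    rw [hused, mem_filter]
    exact ⟨mem_univ _, y, hy⟩
  obtain ⟨ψ, hψ, hlt⟩ := e4_aug X hst
  have := hmax ψ (mem_filter.mpr ⟨mem_univ _, hψ⟩)
  omega

end Pool.Agent.Lib.H84S
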