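import Mathlib

set_option autoImplicit false
set_option linter.unusedSectionVars false

open Finset
open scoped Classical

namespace Pool.Agent.Lib.H84S


variable {V : Type} [Fintype V] [DecidableEq V]

private theorem r3_num_tail (c : ℝ) (hc : 0 < c) (j : ℕ) (δ : ℝ) (hδ : 0 < δ) :
    ∃ N : ℕ, ∀ D : ℕ, N ≤ D → (D : ℝ) ^ j * Real.exp (-(c * D)) ≤ δ := by
  have h1 := Real.tendsto_pow_mul_exp_neg_atTop_nhds_zero j
  have h2 : Filter.Tendsto (fun D : ℕ => c * (D : ℝ)) Filter.atTop Filter.atTop :=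
    (tendsto_natCast_atTop_atTop).const_mul_atTop hc
  have h3 := h1.comp h2
  have h4 : ∀ᶠ D : ℕ in Filter.atTop, (c * (D : ℝ)) ^ j * Real.exp (-(c * D)) < c ^ j * δ :=
    h3.eventually (gt_mem_nhds (by positivity))
  obtain ⟨N, hN⟩ := Filter.eventually_atTop.mp h4
  refine ⟨N, fun D hD => ?_⟩
  have h5 := hN D hD
  rw [mul_pow, mul_assoc] at h5
  exact (lt_of_mul_lt_mul_left h5 (by positivity)).le

/-- Chunk R3, second part (S): the numerical estimate.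

**Proof.** With `c = min (p/8) (min (p²/16) (p g / 8))` the first three terms are at most `(2 D + 1) exp (-c D)`, and the last
is at most `exp (-c D)` if `D p k² / 8 ≥ log 4 + c`. And `D^3 exp (-c D) → 0` (`Real.tendsto_pow_mul_exp_neg_atTop_nhds_zero`
after a change of variable, or `tendsto_pow_const_mul_const_pow_of_abs_lt_one` with the ratio `exp (-c) < 1`:
`n^k * r^n → 0`). -/
theorem r3_num (p g k : ℝ) (hp0 : 0 < p) (hp1 : p ≤ 1) (hg : 0 < g) (hk : 0 < k) :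
    ∃ N : ℕ, ∀ D : ℕ, N ≤ D →
      16 * ((D : ℝ) + 1) ^ 2 * (Real.exp (-(p * D / 8)) + D * Real.exp (-(p ^ 2 * D / 16)) +
        D * Real.exp (-(p * g * D / 8)) + 4 ^ D * Real.exp (-(p * k ^ 2 * D ^ 2 / 8))) ≤ 1 := by
  obtain ⟨N1, h1⟩ := r3_num_tail (p / 8) (by positivity) 2 (1 / 256) (by norm_num)
  obtain ⟨N2, h2⟩ := r3_num_tail (p ^ 2 / 16) (by positivity) 3 (1 / 256) (by norm_num)
  obtain ⟨N3, h3⟩ := r3_num_tail (p * g / 8) (by positivity) 3 (1 / 256) (by norm_num)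
  obtain ⟨N4, h4⟩ := r3_num_tail 1 one_pos 2 (1 / 256) (by norm_num)
  obtain ⟨N5, h5⟩ := exists_nat_gt ((Real.log 4 + 1) / (p * k ^ 2 / 8))
  refine ⟨N1 + N2 + N3 + N4 + N5 + 1, fun D hD => ?_⟩
  have hD1 : (1 : ℝ) ≤ D := by exact_mod_cast (by omega : 1 ≤ D)
  have a1 := h1 D (by omega)
  have a2 := h2 D (by omega)
  have a3 := h3 D (by omega)
  have a4 := h4 D (by omega)
  have hD5 : (N5 : ℝ) ≤ D := by exact_mod_cast (by omega : N5 ≤ D)
  have hpk : 0 < p * k ^ 2 / 8 := by positivity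
  have a5 : Real.log 4 + 1 ≤ p * k ^ 2 / 8 * D := by
    have := (div_lt_iff₀ hpk).mp (lt_of_lt_of_le h5 hD5)
    linarith
  have e1 : p * (D : ℝ) / 8 = p / 8 * D := by ring
  have e2 : p ^ 2 * (D : ℝ) / 16 = p ^ 2 / 16 * D := by ring
  have e3 : p * g * (D : ℝ) / 8 = p * g / 8 * D := by ring
  have e4 : (4 : ℝ) ^ D * Real.exp (-(p * k ^ 2 * (D : ℝ) ^ 2 / 8)) ≤ Real.exp (-(1 * D)) := by
    have q1 : (4 : ℝ) ^ D = Real.exp (D * Real.log 4) := by
      rw [← Real.log_pow, Real.exp_log (by positivity)]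
    rw [q1, ← Real.exp_add]
    apply Real.exp_le_exp.mpr
    have q2 : (Real.log 4 + 1) * D ≤ p * k ^ 2 / 8 * D * D :=
      mul_le_mul_of_nonneg_right a5 (by linarith)
    have q3 : p * k ^ 2 * (D : ℝ) ^ 2 / 8 = p * k ^ 2 / 8 * D * D := by ring
    rw [q3]
    linarith
  rw [e1, e2, e3]
  set E1 := Real.exp (-(p / 8 * (D : ℝ)))
  set E2 := Real.exp (-(p ^ 2 / 16 * (D : ℝ)))
  set E3 := Real.exp (-(p * g / 8 * (D : ℝ)))
  set E4 := Real.exp (-(1 * (D : ℝ)))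
  set F := (4 : ℝ) ^ D * Real.exp (-(p * k ^ 2 * (D : ℝ) ^ 2 / 8))
  have p1 : 0 ≤ E1 := (Real.exp_pos _).le
  have p2 : 0 ≤ E2 := (Real.exp_pos _).le
  have p3 : 0 ≤ E3 := (Real.exp_pos _).le
  have pF : 0 ≤ F := by positivity
  have hsq : ((D : ℝ) + 1) ^ 2 ≤ 4 * (D : ℝ) ^ 2 := by nlinarith
  have hnn : 0 ≤ E1 + D * E2 + D * E3 + F := by positivity
  calc 16 * ((D : ℝ) + 1) ^ 2 * (E1 + D * E2 + D * E3 + F)
      ≤ 16 * (4 * (D : ℝ) ^ 2) * (E1 + D * E2 + D * E3 + F) := by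
        apply mul_le_mul_of_nonneg_right _ hnn
        linarith
    _ ≤ 16 * (4 * (D : ℝ) ^ 2) * (E1 + D * E2 + D * E3 + E4) := by
        apply mul_le_mul_of_nonneg_left _ (by positivity)
        linarith
    _ = 64 * ((D : ℝ) ^ 2 * E1 + (D : ℝ) ^ 3 * E2 + (D : ℝ) ^ 3 * E3 + (D : ℝ) ^ 2 * E4) := by ring
    _ ≤ 1 := by linarith

end Pool.Agent.Lib.H84S
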