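import Mathlib

set_option autoImplicit false
set_option linter.unusedSectionVars false

open Finset
open scoped Classical

namespace Pool.Agent.Lib.H84S


variable {V : Type} [Fintype V] [DecidableEq V]

/-- Chunk R4, second part (M): few other bad events share a coordinate.

**Proof.** If the coordinate sets of `v` and `v'` meet there is `u ∈ insert v (G v)` with `u ∈ insert v' (G v')`, so `v' = u` or
`u ∈ G v'`: `v'` is in the union over the at most `D + 1` vertices `u ∈ insert v (G v)` of `insert u {v' | u ∈ G v'}`, each of at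
most `D + 1` elements (`card_biUnion_le_card_mul`; `Set.ncard_le_ncard`, `Set.ncard_coe_finset`). -/
theorem r4_cnt {D : ℕ} (G : V → Finset V) (hG : ∀ v, (G v).card ≤ D)
    (hG2 : ∀ u, (univ.filter fun v => u ∈ G v).card ≤ D) (v : V) :
    {v' : V | v' ≠ v ∧ ¬ Disjoint ((insert v (G v)) ×ˢ (univ : Finset (Fin D)))
      ((insert v' (G v')) ×ˢ (univ : Finset (Fin D)))}.ncard ≤ (D + 1) ^ 2 := by
  have hsub : {v' : V | v' ≠ v ∧ ¬ Disjoint ((insert v (G v)) ×ˢ (univ : Finset (Fin D)))
      ((insert v' (G v')) ×ˢ (univ : Finset (Fin D)))} ⊆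
      (((insert v (G v)).biUnion fun u => insert u (univ.filter fun v' => u ∈ G v') : Finset V) : Set V) := by
    rintro v' ⟨_, h⟩
    rw [Finset.not_disjoint_iff] at h
    obtain ⟨⟨u, c⟩, h1, h2⟩ := h
    rw [Finset.mem_product] at h1 h2
    rw [Finset.mem_coe, Finset.mem_biUnion]
    refine ⟨u, h1.1, ?_⟩
    rw [Finset.mem_insert]
    rcases Finset.mem_insert.1 h2.1 with h3 | h3
    · exact Or.inl h3.symm
    · exact Or.inr (Finset.mem_filter.2 ⟨Finset.mem_univ _, h3⟩)
  refine (Set.ncard_le_ncard hsub (Finset.finite_toSet _)).trans ?_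
  rw [Set.ncard_coe_finset]
  refine (Finset.card_biUnion_le_card_mul _ _ (D + 1) fun u _ => ?_).trans ?_
  · exact (Finset.card_insert_le _ _).trans (Nat.succ_le_succ (hG2 u))
  · rw [pow_two]
    exact Nat.mul_le_mul_right _ ((Finset.card_insert_le _ _).trans (Nat.succ_le_succ (hG v)))

end Pool.Agent.Lib.H84S
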