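import Pool.Agent.Lib.H84S.R4
import Pool.Agent.Lib.H84S.R4B
import Pool.Agent.Lib.H84S.R3B
import Pool.Agent.Lib.BFE.Defs

set_option autoImplicit false
set_option linter.unusedSectionVars false

open Finset
open scoped Classical

namespace Pool.Agent.Lib.H84S

open Pool.Agent.Lib.Prob48 (Weights)
open Pool.Agent.Lib.BFE

variable {V : Type} [Fintype V] [DecidableEq V]

/-- Chunk R4, main part (M): **the random sets**.

**Proof.** `N` from `r3_num`. The local lemma `Weights.lll_symm` for `μ = coin (fun _ => p)`, `A v = Bad p g k G P v`,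
`S v = insert v (G v) ×ˢ univ`, the probability bound `q` of `r3_bad` (`4 q ≤ 1` and `4 q (D + 1)² ≤ 1` from `r3_num`),
`d = (D + 1)²` gives `x` with no bad event; `Z v = zz x v`. (1): first event. (2): second event: `2 |Z v ∩ Z w ∩ P v| > p² |P v|
≥ p² D / 2`. (3): third: `2 # > p |G v| ≥ p g D`. (4): fourth event for `(Y, Q)`: `2 ∑_{y ∈ Y} |Z y ∩ Q| > p |Y| |Q|`, so some
`y ∈ Y` has `2 |Z y ∩ Q| > p |Q| ≥ p k D` (otherwise the sum would be at most `p |Y| |Q|`; `Finset.sum_le_card_nsmul`). -/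
theorem r4_sets (p g k : ℝ) (hp0 : 0 < p) (hp1 : p ≤ 1) (hg : 0 < g) (hk : 0 < k) :
    ∃ N : ℕ, ∀ (V : Type) [Fintype V] [DecidableEq V] (D : ℕ) (G : V → Finset V)
      (P : V → Finset (Fin D)), N ≤ D → (∀ v, (G v).card ≤ D) →
      (∀ u, (univ.filter fun v => u ∈ G v).card ≤ D) → (∀ v, v ∉ G v) → (∀ v, D ≤ 2 * (P v).card) →
      ∃ Z : V → Finset (Fin D), (∀ v, ((Z v).card : ℝ) ≤ 2 * p * D) ∧
        (∀ v, ∀ w ∈ G v, p ^ 2 * D / 4 ≤ ((Z v ∩ Z w ∩ P v).card : ℝ)) ∧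
        (∀ v, g * D ≤ ((G v).card : ℝ) → ∀ a, p * g * D / 2 ≤ (((G v).filter fun y => a ∈ Z y).card : ℝ)) ∧
        (∀ v, ∀ Y ⊆ G v, ∀ Q : Finset (Fin D), k * D ≤ (Y.card : ℝ) → k * D ≤ (Q.card : ℝ) →
          ∃ y ∈ Y, p * k * D / 2 ≤ ((Z y ∩ Q).card : ℝ)) := by
  obtain ⟨N, hN⟩ := r3_num p g k hp0 hp1 hg hk
  refine ⟨N, fun V _ _ D G P hD hG hG2 hGv hP => ?_⟩
  set q : ℝ := Real.exp (-(p * D / 8)) + D * Real.exp (-(p ^ 2 * D / 16)) +
    D * Real.exp (-(p * g * D / 8)) + 4 ^ D * Real.exp (-(p * k ^ 2 * D ^ 2 / 8)) with hq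
  have hq0 : 0 ≤ q := by positivity
  have hqN : 16 * ((D : ℝ) + 1) ^ 2 * q ≤ 1 := hN D hD
  have hD1 : (1 : ℝ) ≤ ((D : ℝ) + 1) ^ 2 := by
    have : (0 : ℝ) ≤ D := Nat.cast_nonneg D
    nlinarith
  have hDq : q ≤ ((D : ℝ) + 1) ^ 2 * q := le_mul_of_one_le_left hq0 hD1
  obtain ⟨x, hx⟩ := (coin (fun _ : V × Fin D => p) (fun _ => hp0.le) (fun _ => hp1)).lll_symm
    (fun (v : V) x => Bad p g k G P v x)
    (fun v => (insert v (G v)) ×ˢ (univ : Finset (Fin D)))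
    (fun v => r4_dep p g k G P v) q ((D + 1) ^ 2)
    (fun v => r3_bad D p g k hp0 hp1 hg hk G P v (hG v) (hGv v) (hP v))
    (by linarith) (by push_cast; linarith) (fun v => r4_cnt G hG hG2 v)
  refine ⟨fun v => zz x v, ?_, ?_, ?_, ?_⟩
  · intro v
    by_contra hcon
    exact hx v (Or.inl (not_le.mp hcon))
  · intro v w hw
    by_contra hcon
    refine hx v (Or.inr (Or.inl ⟨w, hw, ?_⟩))
    have h1 := not_le.mp hcon
    have h2 : (D : ℝ) ≤ 2 * ((P v).card : ℝ) := by exact_mod_cast hP v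
    have h3 : p ^ 2 * D ≤ p ^ 2 * (2 * ((P v).card : ℝ)) :=
      mul_le_mul_of_nonneg_left h2 (by positivity)
    linarith
  · intro v hv a
    by_contra hcon
    refine hx v (Or.inr (Or.inr (Or.inl ⟨hv, a, mem_univ a, ?_⟩)))
    have h1 := not_le.mp hcon
    have h3 : p * (g * D) ≤ p * ((G v).card : ℝ) := mul_le_mul_of_nonneg_left hv hp0.le
    linarith
  · intro v Y hY Q hYk hQk
    by_contra hcon
    push Not at hcon
    refine hx v (Or.inr (Or.inr (Or.inr ⟨(Y, Q), ?_, ?_⟩)))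
    · exact mem_filter.mpr ⟨mem_product.mpr ⟨mem_powerset.mpr hY, mem_powerset.mpr
        (subset_univ Q)⟩, hYk, hQk⟩
    · have h3 : p * (k * D) ≤ p * (Q.card : ℝ) := mul_le_mul_of_nonneg_left hQk hp0.le
      have h4 : ∀ y ∈ Y, ((zz x y ∩ Q).card : ℝ) ≤ p * (Q.card : ℝ) / 2 := by
        intro y hy
        have := hcon y hy
        linarith
      have h5 := Finset.sum_le_card_nsmul Y (fun y => ((zz x y ∩ Q).card : ℝ)) _ h4
      rw [nsmul_eq_mul] at h5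
      show 2 * (∑ y ∈ Y, ((zz x y ∩ Q).card : ℝ)) ≤ p * ((Y.card : ℝ) * (Q.card : ℝ))
      linarith

end Pool.Agent.Lib.H84S
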