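import Pool.Agent.Lib.H84S.P1
import Pool.Agent.Lib.H84S.A1
import Pool.Agent.Lib.H84S.A2B
import Pool.Agent.Lib.H84S.A3
import Pool.Agent.Lib.H84S.A3B
import Pool.Agent.Lib.H84S.R4C
import Pool.Agent.Lib.H84S.E4B

set_option autoImplicit false
set_option linter.unusedSectionVars false

open Finset
open scoped Classical

namespace Pool.Agent.Lib.H84S

open Pool.Agent.Lib.BFE

/-- Chunk A4 (M): **the theorem in the form `Hyp`**.

`G b` are the ends `y` of the special edges `{b, y}`: at least `g D` at every vertex `b` with more than `(1 - 1/n) D` edges, at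
most `h D` at every `y`. (`n ≤ K`: a larger `n` gives a larger bound `K` for the edges at the vertices `y`.)

**Proof.** Constants: `K0, Ks, N₁` from `p1_phase n`;
`p = 1 / (16 * 10^10 * n * (Ks + 1))` (so `a1_nibble` applies with `Ks + 1`, `p ≤ g`, `p ≤ 1`); `k = p² / 16`; `h = p^3 / 64`; `N₂` from
`r4_sets p g k`, `N₃` from `a1_nibble`; `K = K0 - 1`; `D0` the maximum of the `N_i` and of a bound that makes the rounding
below work (`D ≥ 64 * 16 / p^3`). Given `D ≥ D0`, `E`, `G`: `χ` from `p1_phase`; `P v` as in `a3_P`; `Z` from `r4_sets` (if `G v` is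
empty the statements there are void). `m = ⌊h D⌋`, `q = ⌈k D⌉`, `r = ⌊p g D / 2⌋`. For `v` with `G v` empty the degree in
`rest E G` is at most the degree in `E`, so `n deg ≤ (n - 1) D` by `hlow`; for `v` with `G v` nonempty `deg_rest ≤ D - 1 - g D`
(`a2_deg`), and `n g ≥ 1`. So `p1_phase` gives the load bound for `E' = rest E G`, and `a1_nibble` gives `c`. `hy` of `a2_ex`:
`y ∈ G b` lies only in edges with at most `K = K0 - 1` vertices, `χ` colours edges with at least `K0` vertices only.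
`hwz`: `p² D / 4 ≥ k D + 1 + h D` (`r4_sets` (2)), `hexp`: `p k D / 2 = p³ D / 32 > h D = p³ D / 64` so `m < |Z y ∩ Q|`,
`hbig`: `2 ⌈k D⌉ + ⌊h D⌋ ≤ ⌊p g D / 2⌋` since `p g / 2 ≥ p² / 2 ≥ 2 k + h + p²/4`. `e4_exchange` gives `φ`, `a3_union` the colouring. -/
theorem a4_main (n : ℕ) (hn : 1 ≤ n) (g : ℝ) (hg : 0 < g) (hg1 : g ≤ 1) (hng : 1 ≤ n * g) :
    ∃ (K D0 : ℕ) (h : ℝ), 0 < h ∧ n ≤ K ∧ ∀ (V : Type) [Fintype V] [DecidableEq V]
    (E : Finset (Finset V)) (D : ℕ) (G : V → Finset V), D0 ≤ D → Hyp E D →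
    (∀ b, ∀ y ∈ G b, ({b, y} : Finset V) ∈ E ∧ b ≠ y ∧ G y = ∅ ∧ ∀ e ∈ E, y ∈ e → e.card ≤ K) →
    (∀ b, (G b).Nonempty → g * D ≤ ((G b).card : ℝ)) →
    (∀ b, ¬ (G b).Nonempty → n * (E.filter fun e => b ∈ e).card ≤ (n - 1) * D) →
    (∀ y, ((univ.filter fun b => y ∈ G b).card : ℝ) ≤ h * D) →
    ∃ d : Finset V → Fin D, ∀ e ∈ E, ∀ f ∈ E, e ≠ f → ¬ Disjoint e f → d e ≠ d f := by
  obtain ⟨K0, Ks, N1, hK0, hnK, hph⟩ := p1_phase n hn
  have hnr : (1 : ℝ) ≤ n := by exact_mod_cast hn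
  have hKsr : (1 : ℝ) ≤ (Ks : ℝ) + 1 := by
    have : (0 : ℝ) ≤ Ks := Nat.cast_nonneg _
    linarith
  obtain ⟨p, hpdef⟩ : ∃ p : ℝ, p = 1 / (16 * 10 ^ 10 * n * (Ks + 1)) := ⟨_, rfl⟩
  have hden : (n : ℝ) ≤ 16 * 10 ^ 10 * n * (Ks + 1) := by nlinarith
  have hden1 : (0 : ℝ) < 16 * 10 ^ 10 * n * (Ks + 1) := by linarith
  have hp0 : 0 < p := by
    rw [hpdef]
    positivity
  have hpn : p ≤ 1 / n := by
    rw [hpdef]
    exact one_div_le_one_div_of_le (by linarith) hden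
  have hp1 : p ≤ 1 := by
    refine hpn.trans ?_
    rw [div_le_one (by linarith)]
    exact hnr
  have hpg : p ≤ g := by
    refine hpn.trans ?_
    rw [div_le_iff₀ (by linarith)]
    linarith
  have hp2 : 0 < p ^ 2 := by positivity
  have hp3 : 0 < p ^ 3 := by positivity
  have hp32 : p ^ 3 ≤ p ^ 2 := by nlinarith
  have hp31 : p ^ 3 ≤ 1 := pow_le_one₀ hp0.le hp1
  have hpp : 16 * 10 ^ 10 * (n : ℝ) * ((Ks + 1 : ℕ) : ℝ) * p ≤ 1 := by
    rw [hpdef]
    push_cast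
    rw [mul_one_div, div_self hden1.ne']
  obtain ⟨N2, hN2⟩ := r4_sets p g (p ^ 2 / 16) hp0 hp1 hg (by positivity)
  obtain ⟨N3, hN31, hN3⟩ := a1_nibble n (Ks + 1) hn (by omega) p hp0.le hpp
  refine ⟨K0 - 1, max N1 (max N2 (max N3 ⌈1024 / p ^ 3⌉₊)), p ^ 3 / 64, by positivity, by omega, ?_⟩
  intro V _ _ E D G hD H hGE hhigh hlow hends
  obtain ⟨hD1, hD'⟩ := max_le_iff.1 hD
  obtain ⟨hD2, hD'⟩ := max_le_iff.1 hD'
  obtain ⟨hD3, hD4⟩ := max_le_iff.1 hD'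
  have hDp : 0 < D := H.D_pos
  have hDr : (0 : ℝ) < D := by exact_mod_cast hDp
  have hD5 : 1024 ≤ p ^ 3 * D := by
    have h1 : 1024 / p ^ 3 ≤ D := (Nat.le_ceil _).trans (by exact_mod_cast hD4)
    rw [div_le_iff₀ hp3] at h1
    linarith
  have hD6 : 1024 ≤ p ^ 2 * D := hD5.trans (mul_le_mul_of_nonneg_right hp32 hDr.le)
  obtain ⟨χ, hχ, hprop, hχ2, hload⟩ := hph V E D hD1 H
  obtain ⟨P, hPdef⟩ : ∃ P : V → Finset (Fin D), ∀ v, P v =
      univ.filter fun a : Fin D => ∀ e ∈ E, v ∈ e → χ e ≠ some a := ⟨_, fun _ => rfl⟩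
  have hPc : ∀ v, D ≤ 2 * (P v).card := by
    intro v
    rw [hPdef]
    exact a3_P H χ K0 hK0 hχ v
  have hG : ∀ b, ∀ y ∈ G b, ({b, y} : Finset V) ∈ E ∧ b ≠ y := fun b y hy =>
    ⟨(hGE b y hy).1, (hGE b y hy).2.1⟩
  have hGc : ∀ v, (G v).card ≤ D := by
    intro v
    have := a2_deg H G hG v
    omega
  have hends1 : ∀ u, (univ.filter fun v => u ∈ G v).card ≤ D := by
    intro u
    have h1 := hends u
    have h2 : ((univ.filter fun v => u ∈ G v).card : ℝ) ≤ D := by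
      refine h1.trans ?_
      nlinarith
    exact_mod_cast h2
  obtain ⟨Z, hZ1, hZ2, hZ3, hZ4⟩ := hN2 V D G P hD2 hGc hends1
    (fun v hv => (hG v v hv).2 rfl) hPc
  have hrest : rest E G ⊆ E := filter_subset _ _
  have hdeg : ∀ v, n * ((rest E G).filter fun e => v ∈ e).card ≤ (n - 1) * D := by
    intro v
    by_cases hv : (G v).Nonempty
    · have h1 := a2_deg H G hG v
      have h2 : D ≤ n * (G v).card := by
        have h3 : (D : ℝ) ≤ n * (G v).card := by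
          calc (D : ℝ) = 1 * D := (one_mul _).symm
            _ ≤ (n * g) * D := mul_le_mul_of_nonneg_right hng hDr.le
            _ = n * (g * D) := by ring
            _ ≤ n * (G v).card := mul_le_mul_of_nonneg_left (hhigh v hv) (by linarith)
        exact_mod_cast h3
      have h4 : n * (((rest E G).filter fun e => v ∈ e).card + (G v).card) ≤ n * (D - 1) :=
        Nat.mul_le_mul_left _ h1
      rw [Nat.mul_add] at h4
      have h5 : n * (D - 1) ≤ n * D := Nat.mul_le_mul_left _ (Nat.sub_le _ _)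
      rw [Nat.sub_mul, one_mul]
      omega
    · refine le_trans (Nat.mul_le_mul_left _ (card_le_card ?_)) (hlow v hv)
      exact filter_subset_filter _ hrest
  obtain ⟨c, hc1, hc2, hc3⟩ := hN3 V E (rest E G) D hD3 hrest H.lin χ Z hprop
    (fun f hf => (hχ f hf).1)
    (fun e he he0 => ⟨(hχ2 e (hrest he) he0).1.trans (Nat.le_succ _), (hχ2 e (hrest he) he0).2⟩)
    (hload (rest E G) hrest hdeg) hZ1
  have hy : ∀ b, ∀ y ∈ G b, ∀ e ∈ E, y ∈ e → χ e = none := by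
    intro b y hyb e he hye
    by_contra hne
    have h1 := (hχ e hne).2
    have h2 := (hGE b y hyb).2.2.2 e he hye
    omega
  have hq1 : ((⌈p ^ 2 / 16 * D⌉₊ : ℕ) : ℝ) ≤ p ^ 2 / 16 * D + 1 :=
    (Nat.ceil_lt_add_one (by positivity)).le
  have hm1 : ((⌊p ^ 3 / 64 * D⌋₊ : ℕ) : ℝ) ≤ p ^ 3 / 64 * D := Nat.floor_le (by positivity)
  have hpgD : p ^ 2 * D ≤ p * g * D := by
    refine mul_le_mul_of_nonneg_right ?_ hDr.le
    rw [sq]
    exact mul_le_mul_of_nonneg_left hpg hp0.le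
  have hp3D : p ^ 3 * D ≤ p ^ 2 * D := mul_le_mul_of_nonneg_right hp32 hDr.le
  have X := a2_ex H G hG χ c Z P
    (fun v a ha e he hve => by
      rw [hPdef, mem_filter] at ha
      exact ha.2 e he hve)
    hc2 hc3 hy ⌊p ^ 3 / 64 * D⌋₊ ⌈p ^ 2 / 16 * D⌉₊ ⌊p * g * D / 2⌋₊
    (fun y => Nat.le_floor (hends y))
    (fun b y hyb => by
      have h1 := hZ2 b y hyb
      have h2 : Z b ∩ P b ∩ Z y = Z b ∩ Z y ∩ P b := inter_right_comm _ _ _
      rw [h2]
      have h3 : ((⌈p ^ 2 / 16 * D⌉₊ + ⌊p ^ 3 / 64 * D⌋₊ : ℕ) : ℝ) ≤ ((Z b ∩ Z y ∩ P b).card : ℝ) := by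
        push_cast
        linarith
      exact_mod_cast h3)
    (fun b hb a => by
      have h1 := hZ3 b (hhigh b hb) a
      have h2 : ((⌊p * g * D / 2⌋₊ : ℕ) : ℝ) ≤ (((G b).filter fun y => a ∈ Z y).card : ℝ) :=
        (Nat.floor_le (by positivity)).trans h1
      exact_mod_cast h2)
    (fun b Y hY Q hYc hQc => by
      obtain ⟨y, hyY, h1⟩ := hZ4 b Y hY Q (Nat.ceil_le.1 hYc) (Nat.ceil_le.1 hQc)
      refine ⟨y, hyY, ?_⟩
      have h2 : ((⌊p ^ 3 / 64 * D⌋₊ : ℕ) : ℝ) < ((Z y ∩ Q).card : ℝ) := by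
        refine lt_of_le_of_lt hm1 (lt_of_lt_of_le ?_ h1)
        have h3 : p * (p ^ 2 / 16) * D / 2 = p ^ 3 * D / 32 := by ring
        rw [h3]
        linarith
      exact_mod_cast h2)
    (by
      refine Nat.le_floor ?_
      push_cast
      linarith)
  obtain ⟨φ, hφ, hφ2⟩ := e4_exchange X
  exact a3_union hDp G (fun b y hyb => (hGE b y hyb).2.2.1) c hc1 φ hφ hφ2

end Pool.Agent.Lib.H84S
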