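import Pool.Agent.Lib.H84S.Defs

set_option autoImplicit false
set_option linter.unusedSectionVars false

open Finset
open scoped Classical

namespace Pool.Agent.Lib.H84S

variable {β τ C : Type} [Fintype β] [DecidableEq β] [Fintype τ] [DecidableEq τ] [Fintype C]
  [DecidableEq C] {Γ : Finset (β × τ)} {FB : β → Finset C} {FT : τ → Finset C}

/-- Chunk E1 (M): a fan move is legal.

**Proof.** `(b, y) ≠ (b, w)` since the first is coloured and the second is not. `mv φ (b, w) (b, y) c` differs from `φ`
only at `(b, w)` (now `c`) and `(b, y)` (was `c`, now uncoloured): `dom` by `mem`; at `b` the colour `c` was only on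
`(b, y)`; at `w` it was missing; `c ∉ FB b` since `(b, y)` had it, `c ∉ FT w` by `MissT`. `c ≠ a` since `a` is missing
at `b`; so `a` is still missing at `b` and the pairs of colour `a` are the same. One pair became coloured, one uncoloured:
`num` is unchanged (`univ.filter` of the new one is `insert (b, w) ((old).erase (b, y))`). -/
theorem e1_fan {a c : C} {φ : β × τ → Option C} {b : β} {w y : τ} (h : St Γ FB FT a φ b w)
    (hw : MissT FT φ w c) (hy : φ (b, y) = some c) :
    St Γ FB FT a (mv φ (b, w) (b, y) c) b y ∧ num (mv φ (b, w) (b, y) c) = num φ ∧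
      (∀ e, mv φ (b, w) (b, y) c e = some a ↔ φ e = some a) := by
  have hne : (b, w) ≠ (b, y) := by
    intro he
    have h1 := h.hole
    rw [he, hy] at h1
    exact Option.some_ne_none c h1
  have h1 : mv φ (b, w) (b, y) c (b, y) = none := Function.update_self _ _ _
  have h2 : mv φ (b, w) (b, y) c (b, w) = some c := by
    unfold mv
    rw [Function.update_of_ne hne, Function.update_self]
  have h3 : ∀ e, e ≠ (b, w) → e ≠ (b, y) → mv φ (b, w) (b, y) c e = φ e := by
    intro e h4 h5
    unfold mv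
    rw [Function.update_of_ne h5, Function.update_of_ne h4]
  have hca : c ≠ a := by
    rintro rfl
    exact h.miss.2 y hy
  have key : ∀ e c', mv φ (b, w) (b, y) c e = some c' →
      (e = (b, w) ∧ c' = c) ∨ (e ≠ (b, w) ∧ e ≠ (b, y) ∧ φ e = some c') := by
    intro e c' he
    by_cases e1 : e = (b, w)
    · left
      rw [e1, h2] at he
      exact ⟨e1, (Option.some.inj he).symm⟩
    · right
      by_cases e2 : e = (b, y)
      · rw [e2, h1] at he
        exact absurd he.symm (Option.some_ne_none c')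
      · rw [h3 e e1 e2] at he
        exact ⟨e1, e2, he⟩
  refine ⟨⟨⟨?_, ?_, ?_, ?_, ?_⟩, ?_, h1, h.miss.1, ?_⟩, ?_, ?_⟩
  · intro e he
    obtain ⟨c', hc'⟩ := Option.ne_none_iff_exists'.1 he
    rcases key e c' hc' with ⟨h4, -⟩ | ⟨-, -, h4⟩
    · rw [h4]
      exact h.mem
    · exact h.valid.dom e (by rw [h4]; exact Option.some_ne_none c')
  · intro b1 y1 y2 c1 h4 h5
    rcases key _ _ h4 with ⟨e1, hc1⟩ | ⟨e1, e2, h6⟩
    · rcases key _ _ h5 with ⟨e3, -⟩ | ⟨e3, e4, h7⟩
      · exact (Prod.mk.inj (e1.trans e3.symm)).2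
      · exfalso
        have hb1 : b1 = b := (Prod.mk.inj e1).1
        subst hb1 hc1
        have h8 := h.valid.left _ _ _ _ h7 hy
        exact e4 (by rw [h8])
    · rcases key _ _ h5 with ⟨e3, hc1⟩ | ⟨e3, e4, h7⟩
      · exfalso
        have hb1 : b1 = b := (Prod.mk.inj e3).1
        subst hb1 hc1
        have h8 := h.valid.left _ _ _ _ h6 hy
        exact e2 (by rw [h8])
      · exact h.valid.left _ _ _ _ h6 h7
  · intro b1 b2 y1 c1 h4 h5
    rcases key _ _ h4 with ⟨e1, hc1⟩ | ⟨e1, e2, h6⟩
    · rcases key _ _ h5 with ⟨e3, -⟩ | ⟨e3, e4, h7⟩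
      · exact (Prod.mk.inj (e1.trans e3.symm)).1
      · exfalso
        have hy1 : y1 = w := (Prod.mk.inj e1).2
        subst hy1 hc1
        exact hw.2 b2 h7
    · rcases key _ _ h5 with ⟨e3, hc1⟩ | ⟨e3, e4, h7⟩
      · exfalso
        have hy1 : y1 = w := (Prod.mk.inj e3).2
        subst hy1 hc1
        exact hw.2 b1 h6
      · exact h.valid.right _ _ _ _ h6 h7
  · intro b1 y1 c1 h4
    rcases key _ _ h4 with ⟨e1, hc1⟩ | ⟨-, -, h6⟩
    · have hb1 : b1 = b := (Prod.mk.inj e1).1
      rw [hb1, hc1]
      exact h.valid.fb _ _ _ hy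
    · exact h.valid.fb _ _ _ h6
  · intro b1 y1 c1 h4
    rcases key _ _ h4 with ⟨e1, hc1⟩ | ⟨-, -, h6⟩
    · have hy1 : y1 = w := (Prod.mk.inj e1).2
      rw [hy1, hc1]
      exact hw.1
    · exact h.valid.ft _ _ _ h6
  · exact h.valid.dom _ (by rw [hy]; exact Option.some_ne_none c)
  · intro y1 h4
    rcases key _ _ h4 with ⟨-, hc1⟩ | ⟨-, -, h6⟩
    · exact hca hc1.symm
    · exact h.miss.2 y1 h6
  · unfold num
    refine Finset.card_equiv (Equiv.swap (b, w) (b, y)) fun e => ?_
    rw [Finset.mem_filter, Finset.mem_filter]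
    simp only [Finset.mem_univ, true_and]
    by_cases e1 : e = (b, w)
    · rw [e1, Equiv.swap_apply_left, h2, hy]
    · by_cases e2 : e = (b, y)
      · rw [e2, Equiv.swap_apply_right, h1, h.hole]
      · rw [Equiv.swap_apply_of_ne_of_ne e1 e2, h3 e e1 e2]
  · intro e
    constructor
    · intro h4
      rcases key _ _ h4 with ⟨-, hc1⟩ | ⟨-, -, h6⟩
      · exact absurd hc1.symm hca
      · exact h6
    · intro h4
      have e1 : e ≠ (b, w) := by
        rintro rfl
        rw [h.hole] at h4
        exact Option.some_ne_none a h4.symm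
      have e2 : e ≠ (b, y) := by
        rintro rfl
        rw [hy] at h4
        exact hca (Option.some.inj h4)
      rw [h3 e e1 e2]
      exact h4

end Pool.Agent.Lib.H84S
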