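import Pool.Agent.Lib.H84S.Defs

set_option autoImplicit false
set_option linter.unusedSectionVars false

open Finset
open scoped Classical

namespace Pool.Agent.Lib.H84S

variable {β τ C : Type} [Fintype β] [DecidableEq β] [Fintype τ] [DecidableEq τ] [Fintype C]
  [DecidableEq C] {Γ : Finset (β × τ)} {FB : β → Finset C} {FT : τ → Finset C}

/-- Chunk E1, third part (S/M): a colour missing at both ends of the hole augments.

**Proof.** `Function.update φ (b, w) (some c)`. -/
theorem e1_aug {a c : C} {φ : β × τ → Option C} {b : β} {w : τ} (h : St Γ FB FT a φ b w)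
    (hb : MissB FB φ b c) (hw : MissT FT φ w c) :
    ∃ ψ : β × τ → Option C, Valid Γ FB FT ψ ∧ num ψ = num φ + 1 := by
  have hupd : ∀ e : β × τ, e ≠ (b, w) → Function.update φ (b, w) (some c) e = φ e :=
    fun e he => Function.update_of_ne he _ _
  have hself : Function.update φ (b, w) (some c) (b, w) = some c := Function.update_self _ _ _
  refine ⟨Function.update φ (b, w) (some c), ⟨?_, ?_, ?_, ?_, ?_⟩, ?_⟩
  · intro e he
    by_cases h1 : e = (b, w)
    · rw [h1]; exact h.mem
    · rw [hupd e h1] at he
      exact h.valid.dom e he
  · intro b1 y y' c1 h1 h2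
    by_cases e1 : (b1, y) = (b, w)
    · by_cases e2 : (b1, y') = (b, w)
      · have h3 := e1.trans e2.symm
        exact (Prod.mk.inj h3).2
      · exfalso
        rw [e1, hself] at h1
        rw [hupd _ e2] at h2
        have hc : c = c1 := Option.some.inj h1
        have hb1 : b1 = b := (Prod.mk.inj e1).1
        subst hc hb1
        exact hb.2 y' h2
    · by_cases e2 : (b1, y') = (b, w)
      · exfalso
        rw [e2, hself] at h2
        rw [hupd _ e1] at h1
        have hc : c = c1 := Option.some.inj h2
        have hb1 : b1 = b := (Prod.mk.inj e2).1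
        subst hc hb1
        exact hb.2 y h1
      · rw [hupd _ e1] at h1
        rw [hupd _ e2] at h2
        exact h.valid.left b1 y y' c1 h1 h2
  · intro b1 b2 y c1 h1 h2
    by_cases e1 : (b1, y) = (b, w)
    · by_cases e2 : (b2, y) = (b, w)
      · have h3 := e1.trans e2.symm
        exact (Prod.mk.inj h3).1
      · exfalso
        rw [e1, hself] at h1
        rw [hupd _ e2] at h2
        have hc : c = c1 := Option.some.inj h1
        have hy : y = w := (Prod.mk.inj e1).2
        subst hc hy
        exact hw.2 b2 h2
    · by_cases e2 : (b2, y) = (b, w)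
      · exfalso
        rw [e2, hself] at h2
        rw [hupd _ e1] at h1
        have hc : c = c1 := Option.some.inj h2
        have hy : y = w := (Prod.mk.inj e2).2
        subst hc hy
        exact hw.2 b1 h1
      · rw [hupd _ e1] at h1
        rw [hupd _ e2] at h2
        exact h.valid.right b1 b2 y c1 h1 h2
  · intro b1 y c1 h1
    by_cases e1 : (b1, y) = (b, w)
    · rw [e1, hself] at h1
      have hc : c = c1 := Option.some.inj h1
      have hb1 : b1 = b := (Prod.mk.inj e1).1
      subst hc hb1
      exact hb.1
    · rw [hupd _ e1] at h1
      exact h.valid.fb b1 y c1 h1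
  · intro b1 y c1 h1
    by_cases e1 : (b1, y) = (b, w)
    · rw [e1, hself] at h1
      have hc : c = c1 := Option.some.inj h1
      have hy : y = w := (Prod.mk.inj e1).2
      subst hc hy
      exact hw.1
    · rw [hupd _ e1] at h1
      exact h.valid.ft b1 y c1 h1
  · unfold num
    have h1 : (univ.filter fun e => Function.update φ (b, w) (some c) e ≠ none) =
        insert (b, w) (univ.filter fun e => φ e ≠ none) := by
      ext e
      simp only [mem_filter, mem_univ, true_and, mem_insert]
      by_cases e1 : e = (b, w)
      · rw [e1, hself]
        simp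
      · rw [hupd _ e1]
        simp [e1]
    rw [h1, card_insert_of_notMem]
    simp only [mem_filter, mem_univ, true_and, not_not]
    exact h.hole

end Pool.Agent.Lib.H84S
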