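import Pool.Agent.Lib.H84S.E1C

set_option autoImplicit false
set_option linter.unusedSectionVars false

open Finset
open scoped Classical

namespace Pool.Agent.Lib.H84S

variable {β τ C : Type} [Fintype β] [DecidableEq β] [Fintype τ] [DecidableEq τ] [Fintype C]
  [DecidableEq C] {Γ : Finset (β × τ)} {FB : β → Finset C} {FT : τ → Finset C}

/-- the ends `y` of the fan moves from the hole `(b, w)` with a protected colour -/
noncomputable def fst1 (W : β → Finset C) (Z : τ → Finset C) (φ : β × τ → Option C) (b : β) (w : τ) :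
    Finset τ :=
  univ.filter fun y => ∃ c ∈ W b ∩ Z w, (∀ b', φ (b', w) ≠ some c) ∧ φ (b, y) = some c

/-- Chunk E2 (M): many protected fan moves.

**Proof.** Let `S = (W b ∩ Z w)` without the colours of the pairs `(b', w)`; these are at most `m - 1`... at most `m` many
(every pair `(b', w)` is in `Γ`, `Ex.degT`), so `|S| ≥ q` by `Ex.wz`. A colour `c ∈ S` is missing at `w` (`Z w` is disjoint
from `FT w`: `Ex.zt`), so it is not missing at `b` (`e1_aug` and `hmax`); `c ∈ W b` is not in `FB b` (`Ex.wb`), so there is `y`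
with `φ (b, y) = some c`. Different colours give different `y`: `S` injects into `fst1`. -/
theorem e2_first {W : β → Finset C} {Z : τ → Finset C} {m q r : ℕ} (X : Ex Γ FB FT W Z m q r) {a : C}
    {φ : β × τ → Option C} {b : β} {w : τ} (h : St Γ FB FT a φ b w)
    (hmax : ∀ ψ : β × τ → Option C, Valid Γ FB FT ψ → num ψ ≤ num φ) :
    q ≤ (fst1 W Z φ b w).card := by
  obtain ⟨T, hT⟩ : ∃ T : Finset C, T = univ.filter fun c => ∃ b', φ (b', w) = some c := ⟨_, rfl⟩
  have hTm : T.card ≤ m := by
    have h1 : T.image some ⊆ (Γ.filter fun e => e.2 = w).image φ := by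
      intro x hx
      obtain ⟨c, hc, rfl⟩ := Finset.mem_image.1 hx
      rw [hT] at hc
      obtain ⟨b', hb'⟩ := (Finset.mem_filter.1 hc).2
      refine Finset.mem_image.2 ⟨(b', w), Finset.mem_filter.2 ⟨h.valid.dom _ ?_, rfl⟩, hb'⟩
      rw [hb']
      exact Option.some_ne_none c
    have h2 : (T.image some).card = T.card := Finset.card_image_of_injective _ (Option.some_injective C)
    rw [← h2]
    exact (Finset.card_le_card h1).trans (Finset.card_image_le.trans (X.degT w))
  have hwz := X.wz (b, w) h.mem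
  have hS : q ≤ ((W b ∩ Z w) \ T).card := by
    have h1 := Finset.le_card_sdiff T (W b ∩ Z w)
    have h2 : q + m ≤ (W b ∩ Z w).card := hwz
    omega
  have key : ((W b ∩ Z w) \ T).image some ⊆ (fst1 W Z φ b w).image fun y => φ (b, y) := by
    intro x hx
    obtain ⟨c, hc, rfl⟩ := Finset.mem_image.1 hx
    obtain ⟨hc1, hc2⟩ := Finset.mem_sdiff.1 hc
    obtain ⟨hcW, hcZ⟩ := Finset.mem_inter.1 hc1
    have hno : ∀ b', φ (b', w) ≠ some c := by
      intro b' hb'
      apply hc2
      rw [hT]
      exact Finset.mem_filter.2 ⟨Finset.mem_univ _, b', hb'⟩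
    have hmt : MissT FT φ w c := ⟨Finset.disjoint_left.1 (X.zt (b, w) h.mem) hcZ, hno⟩
    have hfb : c ∉ FB b := Finset.disjoint_left.1 (X.wb b) hcW
    have hnb : ¬ MissB FB φ b c := by
      intro hb
      obtain ⟨ψ, hψ, hn⟩ := e1_aug h hb hmt
      have h1 := hmax ψ hψ
      omega
    have hex : ∃ y, φ (b, y) = some c := by
      by_contra hcon
      push Not at hcon
      exact hnb ⟨hfb, hcon⟩
    obtain ⟨y, hy⟩ := hex
    refine Finset.mem_image.2 ⟨y, Finset.mem_filter.2 ⟨Finset.mem_univ _, c, hc1, hno, hy⟩, hy⟩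
  have h2 : (((W b ∩ Z w) \ T).image some).card = ((W b ∩ Z w) \ T).card :=
    Finset.card_image_of_injective _ (Option.some_injective C)
  calc q ≤ ((W b ∩ Z w) \ T).card := hS
    _ = (((W b ∩ Z w) \ T).image some).card := h2.symm
    _ ≤ ((fst1 W Z φ b w).image fun y => φ (b, y)).card := Finset.card_le_card key
    _ ≤ (fst1 W Z φ b w).card := Finset.card_image_le

end Pool.Agent.Lib.H84S
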