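import Pool.Agent.Lib.H84S.E2
import Pool.Agent.Lib.H84S.E1

set_option autoImplicit false
set_option linter.unusedSectionVars false

open Finset
open scoped Classical

namespace Pool.Agent.Lib.H84S

variable {β τ C : Type} [Fintype β] [DecidableEq β] [Fintype τ] [DecidableEq τ] [Fintype C]
  [DecidableEq C] {Γ : Finset (β × τ)} {FB : β → Finset C} {FT : τ → Finset C}

/-- Chunk E2, second part (M): few uncoloured pairs at `b`.

**Proof.** Let `M` be the set of colours missing at `b`. The colours not in `FB b` that are on pairs at `b` are at most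
as many as the coloured pairs at `b`, so `|M| ≥ |C| - |FB b| - (deg b - u) ≥ u` with `u` the number of uncoloured pairs
of `Γ` at `b` (`Ex.deg`). If `u ≥ q`, `Ex.expd` for `Y = fst1` (`e2_first`) and `Q = M` gives `y ∈ fst1` with more than `m`
colours in `Z y ∩ M`; one of them, `d`, is not on a pair `(b', y)` (at most `m` pairs, `Ex.degT`), so it is missing at `y`
(`Ex.zt`) and at `b`. Let `c` be the colour of `(b, y)` with `c ∈ W b ∩ Z w` from `fst1`. After the fan move (`e1_fan`) to the
hole `(b, y)` the colour `d` is still missing at `b` (`d` is not on any pair at `b`, and `c ≠ d` as `c` is on `(b, y)`) and at `y`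
(the only pair at `y` that changed lost its colour, unless `y = w`, excluded as `(b, w)` is uncoloured). `e1_aug` contradicts
`hmax` (`num` is the same after the fan move). -/
theorem e2_unc {W : β → Finset C} {Z : τ → Finset C} {m q r : ℕ} (X : Ex Γ FB FT W Z m q r) {a : C}
    {φ : β × τ → Option C} {b : β} {w : τ} (h : St Γ FB FT a φ b w)
    (hmax : ∀ ψ : β × τ → Option C, Valid Γ FB FT ψ → num ψ ≤ num φ) :
    (Γ.filter fun e => e.1 = b ∧ φ e = none).card < q := by
  by_contra hcon
  push Not at hcon
  obtain ⟨M, hM⟩ : ∃ M : Finset C, M = univ.filter fun c => MissB FB φ b c := ⟨_, rfl⟩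
  have hMmem : ∀ c, c ∈ M ↔ MissB FB φ b c := by
    intro c
    rw [hM]
    simp
  -- the colours on pairs at b
  obtain ⟨K, hK⟩ : ∃ K : Finset C, K = univ.filter fun c => ∃ y, φ (b, y) = some c := ⟨_, rfl⟩
  have hKle : K.card ≤ (Γ.filter fun e => e.1 = b ∧ φ e ≠ none).card := by
    have h1 : K.image some ⊆ (Γ.filter fun e => e.1 = b ∧ φ e ≠ none).image φ := by
      intro x hx
      obtain ⟨c, hc, rfl⟩ := Finset.mem_image.1 hx
      rw [hK] at hc
      obtain ⟨y, hy⟩ := (Finset.mem_filter.1 hc).2
      have hne : φ (b, y) ≠ none := by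
        rw [hy]
        exact Option.some_ne_none c
      exact Finset.mem_image.2 ⟨(b, y), Finset.mem_filter.2 ⟨h.valid.dom _ hne, rfl, hne⟩, hy⟩
    have h2 : (K.image some).card = K.card := Finset.card_image_of_injective _ (Option.some_injective C)
    rw [← h2]
    exact (Finset.card_le_card h1).trans Finset.card_image_le
  have hsplit : (Γ.filter fun e => e.1 = b).card =
      (Γ.filter fun e => e.1 = b ∧ φ e = none).card + (Γ.filter fun e => e.1 = b ∧ φ e ≠ none).card := by
    rw [← Finset.card_union_of_disjoint]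
    · congr 1
      ext e
      simp only [Finset.mem_filter, Finset.mem_union]
      constructor
      · intro he
        by_cases hn : φ e = none
        · exact Or.inl ⟨he.1, he.2, hn⟩
        · exact Or.inr ⟨he.1, he.2, hn⟩
      · rintro (he | he)
        · exact ⟨he.1, he.2.1⟩
        · exact ⟨he.1, he.2.1⟩
    · rw [Finset.disjoint_left]
      intro e he1 he2
      exact (Finset.mem_filter.1 he2).2.2 (Finset.mem_filter.1 he1).2.2
  have hcover : (univ : Finset C) ⊆ (M ∪ FB b) ∪ K := by
    intro c _
    by_cases hcF : c ∈ FB b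
    · exact Finset.mem_union_left _ (Finset.mem_union_right _ hcF)
    · by_cases hcK : ∃ y, φ (b, y) = some c
      · refine Finset.mem_union_right _ ?_
        rw [hK]
        exact Finset.mem_filter.2 ⟨Finset.mem_univ _, hcK⟩
      · refine Finset.mem_union_left _ (Finset.mem_union_left _ ?_)
        rw [hMmem]
        push Not at hcK
        exact ⟨hcF, hcK⟩
  have hcard : Fintype.card C ≤ M.card + (FB b).card + K.card := by
    have h1 := Finset.card_le_card hcover
    rw [Finset.card_univ] at h1
    have h2 := Finset.card_union_le (M ∪ FB b) K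
    have h3 := Finset.card_union_le M (FB b)
    omega
  have hdeg := X.deg b
  have hqM : q ≤ M.card := by omega
  have hYmem : ∀ y ∈ fst1 W Z φ b w, (b, y) ∈ Γ := by
    intro y hy
    obtain ⟨c, _, _, hc⟩ := (Finset.mem_filter.1 hy).2
    refine h.valid.dom _ ?_
    rw [hc]
    exact Option.some_ne_none c
  obtain ⟨y, hyY, hym⟩ := X.expd b (fst1 W Z φ b w) M hYmem (e2_first X h hmax) hqM
  obtain ⟨c, hcWZ, hcno, hcy⟩ := (Finset.mem_filter.1 hyY).2
  obtain ⟨T, hT⟩ : ∃ T : Finset C, T = univ.filter fun c => ∃ b', φ (b', y) = some c := ⟨_, rfl⟩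
  have hTm : T.card ≤ m := by
    have h1 : T.image some ⊆ (Γ.filter fun e => e.2 = y).image φ := by
      intro x hx
      obtain ⟨c1, hc1, rfl⟩ := Finset.mem_image.1 hx
      rw [hT] at hc1
      obtain ⟨b', hb'⟩ := (Finset.mem_filter.1 hc1).2
      refine Finset.mem_image.2 ⟨(b', y), Finset.mem_filter.2 ⟨h.valid.dom _ ?_, rfl⟩, hb'⟩
      rw [hb']
      exact Option.some_ne_none c1
    have h2 : (T.image some).card = T.card := Finset.card_image_of_injective _ (Option.some_injective C)
    rw [← h2]
    exact (Finset.card_le_card h1).trans (Finset.card_image_le.trans (X.degT y))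
  obtain ⟨d, hd1, hd2⟩ : ∃ d ∈ Z y ∩ M, d ∉ T :=
    Finset.exists_mem_notMem_of_card_lt_card (lt_of_le_of_lt hTm hym)
  obtain ⟨hdZ, hdM⟩ := Finset.mem_inter.1 hd1
  have hdB : MissB FB φ b d := (hMmem d).1 hdM
  have hdT : ∀ b', φ (b', y) ≠ some d := by
    intro b' hb'
    apply hd2
    rw [hT]
    exact Finset.mem_filter.2 ⟨Finset.mem_univ _, b', hb'⟩
  have hdFT : d ∉ FT y := Finset.disjoint_left.1 (X.zt (b, y) (hYmem y hyY)) hdZ
  have hcd : c ≠ d := by
    intro hcd
    subst hcd
    exact hdT b hcy
  have hmt : MissT FT φ w c :=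
    ⟨Finset.disjoint_left.1 (X.zt (b, w) h.mem) (Finset.mem_inter.1 hcWZ).2, hcno⟩
  obtain ⟨hSt, hnum, -⟩ := e1_fan h hmt hcy
  have hval : ∀ e : β × τ, mv φ (b, w) (b, y) c e = some d → φ e = some d := by
    intro e he
    unfold mv at he
    by_cases e1 : e = (b, y)
    · rw [e1, Function.update_self] at he
      exact absurd he (by simp)
    · rw [Function.update_of_ne e1] at he
      by_cases e2 : e = (b, w)
      · rw [e2, Function.update_self] at he
        exact absurd (Option.some.inj he) hcd
      · rw [Function.update_of_ne e2] at he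
        exact he
  have hB' : MissB FB (mv φ (b, w) (b, y) c) b d :=
    ⟨hdB.1, fun y' hy' => hdB.2 y' (hval _ hy')⟩
  have hT' : MissT FT (mv φ (b, w) (b, y) c) y d :=
    ⟨hdFT, fun b' hb' => hdT b' (hval _ hb')⟩
  obtain ⟨ψ, hψ, hn⟩ := e1_aug hSt hB' hT'
  have h1 := hmax ψ hψ
  omega

end Pool.Agent.Lib.H84S
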