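import Pool.Agent.Lib.H84S.E1
import Pool.Agent.Lib.H84S.E1B

set_option autoImplicit false
set_option linter.unusedSectionVars false

open Finset
open scoped Classical

namespace Pool.Agent.Lib.H84S

variable {β τ C : Type} [Fintype β] [DecidableEq β] [Fintype τ] [DecidableEq τ] [Fintype C]
  [DecidableEq C] {Γ : Finset (β × τ)} {FB : β → Finset C} {FT : τ → Finset C}

/-- Chunk E3 (S/M): everything reachable is a legal state with the same number of coloured pairs, and the pairs
of colour `a` are controlled.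

**Proof.** Induction on `Reach` with `e1_fan`, `e1_alt`. For the last claim: base trivial; a fan move does not change
the pairs of colour `a`; after an `a`-move at `w` (hole `(b, w)` gets `a`, `(b', w)` becomes the hole) the only new pair of
colour `a` is `(b, w)`: by the induction hypothesis for `(b', w)` either `φ₀ (b', w) = some a`, and `b'` is a reachable end
(by this very move), or there is such a reachable `b''` already. -/
theorem e3_reach {a : C} {φ₀ : β × τ → Option C} {b₀ : β} {w₀ : τ} (h₀ : St Γ FB FT a φ₀ b₀ w₀)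
    {φ : β × τ → Option C} {b : β} {w : τ} (h : Reach FT a φ₀ b₀ w₀ φ b w) :
    St Γ FB FT a φ b w ∧ num φ = num φ₀ ∧
      ∀ b' y, φ (b', y) = some a → φ₀ (b', y) = some a ∨
        ∃ b'', (∃ ψ v, Reach FT a φ₀ b₀ w₀ ψ b'' v) ∧ φ₀ (b'', y) = some a := by
  induction h with
  | base => exact ⟨h₀, rfl, fun b' y h1 => Or.inl h1⟩
  | fan φ b w y c hR hm hy ih =>
    obtain ⟨hSt, hnum, hcol⟩ := ih
    obtain ⟨h1, h2, h3⟩ := e1_fan hSt hm hy
    exact ⟨h1, h2.trans hnum, fun b' y' h4 => hcol b' y' ((h3 _).1 h4)⟩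
  | alt φ b b' w hR hw hy ih =>
    obtain ⟨hSt, hnum, hcol⟩ := ih
    obtain ⟨h1, h2, h3⟩ := e1_alt hSt hw hy
    refine ⟨h1, h2.trans hnum, fun b1 y h4 => ?_⟩
    rcases h3 _ h4 with h5 | h5
    · obtain ⟨-, rfl⟩ := Prod.mk.inj h5
      right
      rcases hcol b' y hy with h6 | h6
      · exact ⟨b', ⟨_, _, Reach.alt φ b b' y hR hw hy⟩, h6⟩
      · exact h6
    · exact hcol b1 y h5

end Pool.Agent.Lib.H84S
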