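import Pool.Agent.Lib.H84S.E3
import Pool.Agent.Lib.H84S.E2B

set_option autoImplicit false
set_option linter.unusedSectionVars false

open Finset
open scoped Classical

namespace Pool.Agent.Lib.H84S

variable {β τ C : Type} [Fintype β] [DecidableEq β] [Fintype τ] [DecidableEq τ] [Fintype C]
  [DecidableEq C] {Γ : Finset (β × τ)} {FB : β → Finset C} {FT : τ → Finset C}

/-- Chunk E3, second part (M/L): many reachable holes at `b`.

**Proof.** Let `N = {y | (b, y) ∈ Γ, a ∈ Z y}`; `|N| ≥ r` by `Ex.many` (`a ∉ FB b` as `a` is missing at `b`). Let `P` be the set of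
`y ∈ N` with `(b, y)` coloured in `φ` for which no hole `(b, y)` is reachable. Claim `|P| < q`. Otherwise `Q = {colour of
(b, y) : y ∈ P}` has `|Q| = |P| ≥ q` (different pairs at `b` have different colours), `Y = fst1 W Z φ b w` has `|Y| ≥ q`
(`e2_first`; `hmax` for `φ` from `num φ = num φ₀`), so by `Ex.expd` there is `y₁ ∈ Y` with more than `m` colours in `Z y₁ ∩ Q`;
one of them, `d`, is not on a pair `(b', y₁)` (at most `m`, `Ex.degT`). So `d` is missing at `y₁` (`Ex.zt`) and `d` is the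
colour of `(b, y₂)` with `y₂ ∈ P`, `y₂ ≠ y₁` (as `d` is not at `y₁`), `y₂ ≠ w` (as `(b, w)` is not coloured). The fan move to
`(b, y₁)` (colour `c` of `(b, y₁)`, missing at `w`), then the fan move to `(b, y₂)`: in `φ₁ = mv φ (b, w) (b, y₁) c` the colour
`d` is still missing at `y₁` and `φ₁ (b, y₂) = some d`. So the hole `(b, y₂)` is reachable, a contradiction.
Uncoloured `y ∈ N` (pairs `(b, y)` with `φ (b, y) = none`): fewer than `q` (`e2_unc`). So at least `r - (q - 1) - (q - 1) ≥ m + 1`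
elements of `N` have a reachable hole (`Ex.big`). -/
theorem e3_good {W : β → Finset C} {Z : τ → Finset C} {m q r : ℕ} (X : Ex Γ FB FT W Z m q r) {a : C}
    {φ₀ : β × τ → Option C} {b₀ : β} {w₀ : τ} (h₀ : St Γ FB FT a φ₀ b₀ w₀)
    (hmax : ∀ ψ : β × τ → Option C, Valid Γ FB FT ψ → num ψ ≤ num φ₀)
    {φ : β × τ → Option C} {b : β} {w : τ} (h : Reach FT a φ₀ b₀ w₀ φ b w) :
    m < (univ.filter fun y => (b, y) ∈ Γ ∧ a ∈ Z y ∧ ∃ ψ, Reach FT a φ₀ b₀ w₀ ψ b y).card := by
  obtain ⟨hst, hnum, -⟩ := e3_reach h₀ h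
  have hmaxφ : ∀ ψ : β × τ → Option C, Valid Γ FB FT ψ → num ψ ≤ num φ := by
    intro ψ hψ
    rw [hnum]
    exact hmax ψ hψ
  have hN := X.many (b, w) hst.mem a hst.miss.1
  have hU := e2_unc X hst hmaxφ
  obtain ⟨R, hR⟩ : ∃ R : Finset τ, R = univ.filter fun y => (b, y) ∈ Γ ∧ a ∈ Z y ∧
      ∃ ψ, Reach FT a φ₀ b₀ w₀ ψ b y := ⟨_, rfl⟩
  obtain ⟨P, hP⟩ : ∃ P : Finset τ, P = univ.filter fun y => (b, y) ∈ Γ ∧ a ∈ Z y ∧ φ (b, y) ≠ none ∧
      ¬ ∃ ψ, Reach FT a φ₀ b₀ w₀ ψ b y := ⟨_, rfl⟩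
  have hPq : P.card < q := by
    by_contra hcon
    push Not at hcon
    obtain ⟨Q, hQ⟩ : ∃ Q : Finset C, Q = univ.filter fun d => ∃ y ∈ P, φ (b, y) = some d := ⟨_, rfl⟩
    have hQcard : q ≤ Q.card := by
      have h1 : (P.image fun y => φ (b, y)).card = P.card := by
        apply Finset.card_image_of_injOn
        intro y hy y' hy' hyy
        have hy1 : y ∈ P := hy
        rw [hP] at hy1
        obtain ⟨c, hc⟩ := Option.ne_none_iff_exists'.1 (Finset.mem_filter.1 hy1).2.2.2.1
        have hc' : φ (b, y') = some c := by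
          rw [← hc]
          exact hyy.symm
        exact hst.valid.left b y y' c hc hc'
      have h2 : (P.image fun y => φ (b, y)) ⊆ Q.image some := by
        intro x hx
        obtain ⟨y, hy, rfl⟩ := Finset.mem_image.1 hx
        have hy1 := hy
        rw [hP] at hy1
        obtain ⟨c, hc⟩ := Option.ne_none_iff_exists'.1 (Finset.mem_filter.1 hy1).2.2.2.1
        refine Finset.mem_image.2 ⟨c, ?_, hc.symm⟩
        rw [hQ]
        exact Finset.mem_filter.2 ⟨Finset.mem_univ _, y, hy, hc⟩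
      calc q ≤ P.card := hcon
        _ = (P.image fun y => φ (b, y)).card := h1.symm
        _ ≤ (Q.image some).card := Finset.card_le_card h2
        _ ≤ Q.card := Finset.card_image_le
    obtain ⟨y₁, hy₁, hexp⟩ := X.expd b (fst1 W Z φ b w) Q (by
      intro y hy
      obtain ⟨c, -, -, hc⟩ := (Finset.mem_filter.1 hy).2
      apply hst.valid.dom
      rw [hc]
      exact Option.some_ne_none c) (e2_first X hst hmaxφ) hQcard
    obtain ⟨c, hcWZ, hcw, hcy⟩ := (Finset.mem_filter.1 hy₁).2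
    have hmem₁ : (b, y₁) ∈ Γ := by
      apply hst.valid.dom
      rw [hcy]
      exact Option.some_ne_none c
    obtain ⟨T, hT⟩ : ∃ T : Finset C, T = univ.filter fun c => ∃ b', φ (b', y₁) = some c := ⟨_, rfl⟩
    have hTm : T.card ≤ m := by
      have h1 : T.image some ⊆ (Γ.filter fun e => e.2 = y₁).image φ := by
        intro x hx
        obtain ⟨c', hc', rfl⟩ := Finset.mem_image.1 hx
        rw [hT] at hc'
        obtain ⟨b', hb'⟩ := (Finset.mem_filter.1 hc').2
        refine Finset.mem_image.2 ⟨(b', y₁), Finset.mem_filter.2 ⟨hst.valid.dom _ ?_, rfl⟩, hb'⟩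
        rw [hb']
        exact Option.some_ne_none c'
      have h2 : (T.image some).card = T.card := Finset.card_image_of_injective _ (Option.some_injective C)
      rw [← h2]
      exact (Finset.card_le_card h1).trans (Finset.card_image_le.trans (X.degT y₁))
    obtain ⟨d, hd, hdT⟩ : ∃ d ∈ Z y₁ ∩ Q, d ∉ T := by
      by_contra hall
      push Not at hall
      have h1 : (Z y₁ ∩ Q).card ≤ T.card := Finset.card_le_card fun x hx => hall x hx
      omega
    obtain ⟨hdZ, hdQ⟩ := Finset.mem_inter.1 hd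
    rw [hQ] at hdQ
    obtain ⟨y₂, hy₂P, hdy⟩ := (Finset.mem_filter.1 hdQ).2
    have hdno : ∀ b', φ (b', y₁) ≠ some d := by
      intro b' hb'
      apply hdT
      rw [hT]
      exact Finset.mem_filter.2 ⟨Finset.mem_univ _, b', hb'⟩
    have hy21 : y₂ ≠ y₁ := by
      rintro rfl
      exact hdno b hdy
    have hy2w : y₂ ≠ w := by
      rintro rfl
      rw [hst.hole] at hdy
      exact absurd hdy.symm (Option.some_ne_none d)
    have hy1w : y₁ ≠ w := by
      rintro rfl
      rw [hst.hole] at hcy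
      exact absurd hcy.symm (Option.some_ne_none c)
    have hmiss : MissT FT φ w c :=
      ⟨Finset.disjoint_left.1 (X.zt (b, w) hst.mem) (Finset.mem_inter.1 hcWZ).2, hcw⟩
    have hr1 := Reach.fan φ b w y₁ c h hmiss hcy
    have hmiss1 : MissT FT (mv φ (b, w) (b, y₁) c) y₁ d := by
      refine ⟨Finset.disjoint_left.1 (X.zt (b, y₁) hmem₁) hdZ, ?_⟩
      intro b' hb'
      by_cases hbb : (b', y₁) = (b, y₁)
      · rw [hbb] at hb'
        unfold mv at hb'
        rw [Function.update_self] at hb'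
        exact absurd hb'.symm (Option.some_ne_none d)
      · have hbw : (b', y₁) ≠ (b, w) := fun h1 => hy1w (Prod.ext_iff.1 h1).2
        unfold mv at hb'
        rw [Function.update_of_ne hbb, Function.update_of_ne hbw] at hb'
        exact hdno b' hb'
    have hcol : mv φ (b, w) (b, y₁) c (b, y₂) = some d := by
      have h1 : (b, y₂) ≠ (b, y₁) := fun h1 => hy21 (Prod.ext_iff.1 h1).2
      have h2 : (b, y₂) ≠ (b, w) := fun h1 => hy2w (Prod.ext_iff.1 h1).2
      unfold mv
      rw [Function.update_of_ne h1, Function.update_of_ne h2]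
      exact hdy
    have hr2 := Reach.fan (mv φ (b, w) (b, y₁) c) b y₁ y₂ d hr1 hmiss1 hcol
    rw [hP] at hy₂P
    exact (Finset.mem_filter.1 hy₂P).2.2.2.2 ⟨_, hr2⟩
  have hsub : (Γ.filter fun f => f.1 = b ∧ a ∈ Z f.2).image Prod.snd ⊆
      R ∪ (P ∪ (Γ.filter fun e => e.1 = b ∧ φ e = none).image Prod.snd) := by
    intro y hy
    obtain ⟨⟨b', y'⟩, hf, rfl⟩ := Finset.mem_image.1 hy
    obtain ⟨hf1, hf2, hf3⟩ := Finset.mem_filter.1 hf
    have hb' : b' = b := hf2
    subst hb'
    have hf4 : a ∈ Z y' := hf3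
    show y' ∈ _
    rw [Finset.mem_union, Finset.mem_union]
    by_cases h1 : ∃ ψ, Reach FT a φ₀ b₀ w₀ ψ b' y'
    · left
      rw [hR]
      exact Finset.mem_filter.2 ⟨Finset.mem_univ _, hf1, hf4, h1⟩
    · right
      by_cases h2 : φ (b', y') = none
      · right
        exact Finset.mem_image.2 ⟨(b', y'), Finset.mem_filter.2 ⟨hf1, rfl, h2⟩, rfl⟩
      · left
        rw [hP]
        exact Finset.mem_filter.2 ⟨Finset.mem_univ _, hf1, hf4, h2, h1⟩
  have hinj : ((Γ.filter fun f => f.1 = b ∧ a ∈ Z f.2).image Prod.snd).card =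
      (Γ.filter fun f => f.1 = b ∧ a ∈ Z f.2).card := by
    apply Finset.card_image_of_injOn
    rintro ⟨x1, x2⟩ hx ⟨y1, y2⟩ hy hxy
    have e1 : x1 = b := (Finset.mem_filter.1 hx).2.1
    have e2 : y1 = b := (Finset.mem_filter.1 hy).2.1
    have e3 : x2 = y2 := hxy
    rw [e1, e2, e3]
  have hcard := Finset.card_le_card hsub
  have hu1 := Finset.card_union_le R (P ∪ (Γ.filter fun e => e.1 = b ∧ φ e = none).image Prod.snd)
  have hu2 := Finset.card_union_le P ((Γ.filter fun e => e.1 = b ∧ φ e = none).image Prod.snd)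
  have hu3 : ((Γ.filter fun e => e.1 = b ∧ φ e = none).image Prod.snd).card ≤
      (Γ.filter fun e => e.1 = b ∧ φ e = none).card := Finset.card_image_le
  have hbig := X.big
  rw [hinj] at hcard
  have hN' : r ≤ (Γ.filter fun f => f.1 = b ∧ a ∈ Z f.2).card := hN
  rw [← hR]
  omega

end Pool.Agent.Lib.H84S
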