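import Pool.Agent.Lib.H84S.E3B
import Pool.Agent.Lib.H84S.E1C

set_option autoImplicit false
set_option linter.unusedSectionVars false

open Finset
open scoped Classical

namespace Pool.Agent.Lib.H84S

variable {β τ C : Type} [Fintype β] [DecidableEq β] [Fintype τ] [DecidableEq τ] [Fintype C]
  [DecidableEq C] {Γ : Finset (β × τ)} {FB : β → Finset C} {FT : τ → Finset C}

/-- Chunk E4 (M): there is an augmentation.

**Proof.** Suppose `num ψ ≤ num φ₀` for all valid `ψ`. Let `R` be the finite set of the `b` with a reachable hole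
`(b, w)`, `R ∋ b₀`, and `YR` the set of the `y` such that `φ₀ (b, y) = some a` for some `b ∈ R`. `|YR| ≤ |R|`
(a `b` has at most one pair of colour `a`: `Valid.left`). Let `b ∈ R` and `y` with `(b, y) ∈ Γ`, `a ∈ Z y` and a reachable
hole `(b, y)` (colouring `ψ`). Then `a ∉ FT y` (`Ex.zt`) and `a` is missing at `b` in `ψ` (`e3_reach`). If no pair `(b', y)` has the
colour `a` in `ψ`, then `e1_aug` contradicts the maximality (`num ψ = num φ₀`). So `ψ (b', y) = some a` for some `b'`; the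
`a`-move shows `b' ∈ R`; by `e3_reach` either `φ₀ (b', y) = some a` or there is `b'' ∈ R` with `φ₀ (b'', y) = some a`; in
both cases `y ∈ YR`. So by `e3_good` every `b ∈ R` has more than `m` elements `y ∈ YR` with `(b, y) ∈ Γ`. Counting the pairs
of `Γ` in `R × YR`: `(m + 1) |R| ≤ ∑_{y ∈ YR} deg y ≤ m |YR| ≤ m |R|`, so `R = ∅`, a contradiction
(`Finset.sum_card_bipartiteAbove_eq_sum_card_bipartiteBelow` or sums of filters and `sum_comm`). -/
theorem e4_aug {W : β → Finset C} {Z : τ → Finset C} {m q r : ℕ} (X : Ex Γ FB FT W Z m q r) {a : C}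
    {φ₀ : β × τ → Option C} {b₀ : β} {w₀ : τ} (h₀ : St Γ FB FT a φ₀ b₀ w₀) :
    ∃ ψ : β × τ → Option C, Valid Γ FB FT ψ ∧ num φ₀ < num ψ := by
  by_contra H
  have hmax : ∀ ψ : β × τ → Option C, Valid Γ FB FT ψ → num ψ ≤ num φ₀ := by
    intro ψ hψ
    by_contra hlt
    exact H ⟨ψ, hψ, not_le.mp hlt⟩
  set R : Finset β := univ.filter (fun b => ∃ ψ w, Reach FT a φ₀ b₀ w₀ ψ b w) with hR
  set YR : Finset τ := univ.filter (fun y => ∃ b ∈ R, φ₀ (b, y) = some a) with hYR
  have hb₀ : b₀ ∈ R := by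
    rw [hR, mem_filter]
    exact ⟨mem_univ _, φ₀, w₀, Reach.base⟩
  have hcard : YR.card ≤ R.card := by
    have hch : ∀ y ∈ YR, ∃ b ∈ R, φ₀ (b, y) = some a := by
      intro y hy
      rw [hYR, mem_filter] at hy
      exact hy.2
    refine Finset.card_le_card_of_injOn
      (fun y => if h : ∃ b ∈ R, φ₀ (b, y) = some a then h.choose else b₀) ?_ ?_
    · intro y hy
      have h1 := hch y hy
      simp only [dif_pos h1]
      exact h1.choose_spec.1
    · intro y hy y' hy' hyy
      have h1 := hch y hy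
      have h2 := hch y' hy'
      simp only [dif_pos h1, dif_pos h2] at hyy
      have h3 := h1.choose_spec.2
      have h4 := h2.choose_spec.2
      rw [← hyy] at h4
      exact h₀.valid.left _ _ _ _ h3 h4
  have hin : ∀ b y, (b, y) ∈ Γ → a ∈ Z y → (∃ ψ, Reach FT a φ₀ b₀ w₀ ψ b y) → y ∈ YR := by
    rintro b y hby haZ ⟨ψ, hr⟩
    obtain ⟨hst, hnum, hcol⟩ := e3_reach h₀ hr
    have hFT : a ∉ FT y := fun h => (Finset.disjoint_left.mp (X.zt (b, y) hby)) haZ h
    by_cases hex : ∃ b', ψ (b', y) = some a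
    · obtain ⟨b', hb'⟩ := hex
      have hb'R : b' ∈ R := by
        rw [hR, mem_filter]
        exact ⟨mem_univ _, _, y, Reach.alt ψ b b' y hr hFT hb'⟩
      rw [hYR, mem_filter]
      refine ⟨mem_univ _, ?_⟩
      rcases hcol b' y hb' with h1 | ⟨b'', hb'', h1⟩
      · exact ⟨b', hb'R, h1⟩
      · refine ⟨b'', ?_, h1⟩
        rw [hR, mem_filter]
        exact ⟨mem_univ _, hb''⟩
    · exfalso
      obtain ⟨ψ', hψ', hn⟩ := e1_aug hst hst.miss
        (⟨hFT, fun b' hb' => hex ⟨b', hb'⟩⟩ : MissT FT ψ y a)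
      have h5 := hmax ψ' hψ'
      omega
  have hm : ∀ b ∈ R, m + 1 ≤ (YR.bipartiteAbove (fun b y => (b, y) ∈ Γ) b).card := by
    intro b hb
    rw [hR, mem_filter] at hb
    obtain ⟨_, ψ, w, hr⟩ := hb
    have h1 := e3_good X h₀ hmax hr
    refine (Nat.succ_le_of_lt h1).trans (Finset.card_le_card ?_)
    intro y hy
    rw [mem_filter] at hy
    rw [Finset.mem_bipartiteAbove]
    exact ⟨hin b y hy.2.1 hy.2.2.1 hy.2.2.2, hy.2.1⟩
  have hn : ∀ y ∈ YR, (R.bipartiteBelow (fun b y => (b, y) ∈ Γ) y).card ≤ m := by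
    intro y _
    refine le_trans ?_ (X.degT y)
    refine Finset.card_le_card_of_injOn (fun b => (b, y)) ?_ ?_
    · intro b hb
      have hb' : b ∈ R.bipartiteBelow (fun b y => (b, y) ∈ Γ) y := hb
      rw [Finset.mem_bipartiteBelow] at hb'
      have : (b, y) ∈ Γ.filter (fun e => e.2 = y) := by
        rw [mem_filter]
        exact ⟨hb'.2, rfl⟩
      exact this
    · intro b _ b' _ hbb
      exact (Prod.mk.inj hbb).1
  have h6 := Finset.card_mul_le_card_mul (fun b y => (b, y) ∈ Γ) hm hn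
  have h7 : 0 < R.card := Finset.card_pos.mpr ⟨b₀, hb₀⟩
  have h8 : YR.card * m ≤ R.card * m := Nat.mul_le_mul_right m hcard
  have h9 : R.card * (m + 1) = R.card * m + R.card := by ring
  omega

end Pool.Agent.Lib.H84S
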