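import Pool.Agent.Lib.H84S.A4
import Pool.Agent.Lib.BFE.Y3

set_option autoImplicit false
set_option linter.unusedSectionVars false

open Finset
open scoped Classical

namespace Pool.Agent.Lib.H84S

open Pool.Agent.Lib.BFE

/-- the number of edges of size two at `v` -/
noncomputable def two {V : Type} [DecidableEq V] (E : Finset (Finset V)) (v : V) : ℕ :=
  (E.filter fun e => v ∈ e ∧ e.card = 2).card

/-- Chunk F1 (M): **the theorem**. The bound `K'` on the edges at the low ends of the members of `S` is arbitrary (given before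
`D0` and `η`).

**Proof.** `g = min γ 1`, `n` with `n ε ≥ 2`, `n g ≥ 1` and `n ≥ K'`, `K, D1, h` from `a4_main` (so `K' ≤ n ≤ K`), `η = h`, `D0 = max D1 1`. Given `E, D, S`:
call `v` high if `(1 - ε) D < two E v`; `G b = {y | b ≠ y, {b, y} ∈ S}` for high `b`, empty for the other `b`. `Hyp E D` by
`y3_vol`. For `y ∈ G b`: `{b, y} = {x, y'}` with `x` high, `y'` not high, so `x = b`, `y' = y` (as `b` is high), so `y` is not
high and `G y = ∅`. For high `b` the map `y ↦ {b, y}` is a bijection from `G b` to the members of `S` that contain `b`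
(such a member is `{x, y'}` with `x` high and `y'` not high, and `b` is high, so `b = x`). So `|G b| ≥ γ D ≥ g D > 0`. A `b` with
`G b` empty is not high: `deg b ≤ (1 - ε/2) D` (`2 deg ≤ ∑ (|e| - 1) + two ≤ D - 1 + (1 - ε) D`, see the proof of
`FewTwoEdges.result`), so `n deg ≤ (n - 1) D`. For `y`: `{b | y ∈ G b}` injects by `b ↦ {b, y}` into the members of `S` at
`y` if `y` is not high; if `y` is high it is empty. -/
theorem f1_final (ε γ : ℝ) (hε : 0 < ε) (hγ : 0 < γ) (K' : ℕ) : ∃ (D0 : ℕ) (η : ℝ), 0 < η ∧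
    ∀ (V : Type) [Fintype V] [DecidableEq V] (E : Finset (Finset V)) (D : ℕ), D0 ≤ D →
    (∀ e ∈ E, 2 ≤ e.card) → (∀ e ∈ E, ∀ f ∈ E, e ≠ f → (e ∩ f).card ≤ 1) →
    (∀ v, (nbhd E v).card ≤ D) → ∀ S ⊆ E,
    (∀ e ∈ S, ∃ x y, e = {x, y} ∧ x ≠ y ∧ (1 - ε) * D < (two E x : ℝ) ∧ (two E y : ℝ) ≤ (1 - ε) * D ∧
      ∀ f ∈ E, y ∈ f → f.card ≤ K') →
    (∀ v, (1 - ε) * D < (two E v : ℝ) → γ * D ≤ ((S.filter fun e => v ∈ e).card : ℝ)) →
    (∀ v, (two E v : ℝ) ≤ (1 - ε) * D → ((S.filter fun e => v ∈ e).card : ℝ) ≤ η * D) →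
    ∃ c : Finset V → Fin D, ∀ e ∈ E, ∀ f ∈ E, e ≠ f → ¬ Disjoint e f → c e ≠ c f := by
  obtain ⟨g, hg0, hg1, hgγ⟩ : ∃ g : ℝ, 0 < g ∧ g ≤ 1 ∧ g ≤ γ :=
    ⟨min γ 1, lt_min hγ one_pos, min_le_right _ _, min_le_left _ _⟩
  obtain ⟨n, hn1, hnK, hnε, hng⟩ : ∃ n : ℕ, 1 ≤ n ∧ K' ≤ n ∧ 2 ≤ n * ε ∧ 1 ≤ n * g := by
    obtain ⟨a, ha⟩ := exists_nat_ge (2 / ε)
    obtain ⟨b, hb⟩ := exists_nat_ge (1 / g)
    rw [div_le_iff₀ hε] at ha
    rw [div_le_iff₀ hg0] at hb
    refine ⟨a + b + 1 + K', by omega, by omega, ?_, ?_⟩ <;> push_cast <;>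
      nlinarith [Nat.cast_nonneg (α := ℝ) a, Nat.cast_nonneg (α := ℝ) b, Nat.cast_nonneg (α := ℝ) K']
  obtain ⟨K, D1, h, hh, hK, H⟩ := a4_main n hn1 g hg0 hg1 hng
  refine ⟨max D1 1, h, hh, ?_⟩
  intro V _ _ E D hD hsize hlin hnb S hSE hS hhigh hlow
  have hD1 : D1 ≤ D := (le_max_left _ _).trans hD
  have hDpos : 1 ≤ D := (le_max_right _ _).trans hD
  have hDr : (1 : ℝ) ≤ D := by exact_mod_cast hDpos
  have hyp : Hyp E D := ⟨hDpos, hsize, hlin, fun v => y3_vol hlin D v (hnb v)⟩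
  set G : V → Finset V := fun b => if (1 - ε) * D < (two E b : ℝ) then univ.filter (fun y => b ≠ y ∧ ({b, y} : Finset V) ∈ S)
    else ∅ with hG
  have memG : ∀ b y, y ∈ G b ↔ (1 - ε) * D < (two E b : ℝ) ∧ b ≠ y ∧ ({b, y} : Finset V) ∈ S := by
    intro b y
    simp only [hG]
    by_cases hb : (1 - ε) * D < (two E b : ℝ)
    · simp [hb]
    · simp [hb]
  -- members of `S` at a high vertex
  have atb : ∀ b, (1 - ε) * D < (two E b : ℝ) → ∀ e ∈ S, b ∈ e → ∃ y, e = {b, y} ∧ b ≠ y ∧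
      (two E y : ℝ) ≤ (1 - ε) * D ∧ ∀ f ∈ E, y ∈ f → f.card ≤ K := by
    intro b hb e he hbe
    obtain ⟨x, y, rfl, hxy, h1, h2, h3'⟩ := hS e he
    have h3 : ∀ f ∈ E, y ∈ f → f.card ≤ K := fun f hf hyf => (h3' f hf hyf).trans (hnK.trans hK)
    have hbx : b = x := by
      rcases Finset.mem_insert.1 hbe with h4 | h4
      · exact h4
      · rw [Finset.mem_singleton.1 h4] at hb
        exact absurd hb (not_lt.2 h2)
    subst hbx
    exact ⟨y, rfl, hxy, h2, h3⟩
  have propG : ∀ b y, y ∈ G b → (two E y : ℝ) ≤ (1 - ε) * D ∧ ∀ f ∈ E, y ∈ f → f.card ≤ K := by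
    intro b y hy
    obtain ⟨hb, hne, hmem⟩ := (memG b y).1 hy
    obtain ⟨y', h1, h2, h3, h4⟩ := atb b hb _ hmem (Finset.mem_insert_self _ _)
    have h5 : y ∈ ({b, y'} : Finset V) := by
      rw [← h1]
      simp
    have h6 : y = y' := by
      rcases Finset.mem_insert.1 h5 with h7 | h7
      · exact absurd h7.symm hne
      · exact Finset.mem_singleton.1 h7
    subst h6
    exact ⟨h3, h4⟩
  have cardG : ∀ b, (1 - ε) * D < (two E b : ℝ) → γ * D ≤ ((G b).card : ℝ) := by
    intro b hb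
    refine (hhigh b hb).trans ?_
    have h1 : (S.filter fun e => b ∈ e) ⊆ (G b).image fun y => ({b, y} : Finset V) := by
      intro e he
      obtain ⟨heS, hbe⟩ := Finset.mem_filter.1 he
      obtain ⟨y, h2, h3, _, _⟩ := atb b hb e heS hbe
      refine Finset.mem_image.2 ⟨y, (memG b y).2 ⟨hb, h3, ?_⟩, h2.symm⟩
      rw [← h2]
      exact heS
    have h2 := (Finset.card_le_card h1).trans Finset.card_image_le
    exact_mod_cast h2
  refine H V E D G hD1 hyp ?_ ?_ ?_ ?_
  · intro b y hy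
    obtain ⟨hb, hne, hmem⟩ := (memG b y).1 hy
    obtain ⟨h1, h2⟩ := propG b y hy
    refine ⟨hSE hmem, hne, ?_, h2⟩
    rw [Finset.eq_empty_iff_forall_notMem]
    intro z hz
    exact absurd ((memG y z).1 hz).1 (not_lt.2 h1)
  · intro b hb
    obtain ⟨y, hy⟩ := hb
    have h1 := cardG b ((memG b y).1 hy).1
    have h2 : g * (D : ℝ) ≤ γ * D := mul_le_mul_of_nonneg_right hgγ (by linarith)
    linarith
  · intro b hb
    have hnb : (two E b : ℝ) ≤ (1 - ε) * D := by
      by_contra hc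
      push Not at hc
      have h1 := cardG b hc
      have h2 : 0 < γ * (D : ℝ) := by positivity
      have h3 : (0 : ℝ) < ((G b).card : ℝ) := lt_of_lt_of_le h2 h1
      exact hb (Finset.card_pos.1 (by exact_mod_cast h3))
    have h1 := hyp.vol b
    have h2 : 2 * (E.filter fun e => b ∈ e).card ≤
        ∑ e ∈ E.filter (fun e => b ∈ e), (e.card - 1) + two E b := by
      have e1 : two E b = ∑ e ∈ E.filter (fun e => b ∈ e), if e.card = 2 then 1 else 0 := by
        rw [two, ← Finset.filter_filter, Finset.card_filter]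
      rw [e1, ← Finset.sum_add_distrib, mul_comm, ← smul_eq_mul, ← Finset.sum_const]
      refine Finset.sum_le_sum fun e he => ?_
      have := hsize e (Finset.mem_filter.1 he).1
      split_ifs with h3
      · omega
      · omega
    have h3 : (2 : ℝ) * ((E.filter fun e => b ∈ e).card : ℝ) ≤ (D : ℝ) + (1 - ε) * D := by
      have h4 : 2 * (E.filter fun e => b ∈ e).card ≤ D + two E b := by omega
      have h5 : (2 : ℝ) * ((E.filter fun e => b ∈ e).card : ℝ) ≤ (D : ℝ) + (two E b : ℝ) := by exact_mod_cast h4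
      linarith
    have h6 : (n : ℝ) * ((E.filter fun e => b ∈ e).card : ℝ) ≤ (n - 1) * D := by
      have hn0 : (0 : ℝ) ≤ n := Nat.cast_nonneg n
      have h7 : (n : ℝ) * (2 * ((E.filter fun e => b ∈ e).card : ℝ)) ≤ n * ((D : ℝ) + (1 - ε) * D) :=
        mul_le_mul_of_nonneg_left h3 hn0
      have h8 : 2 * (D : ℝ) ≤ n * ε * D := mul_le_mul_of_nonneg_right hnε (by linarith)
      nlinarith
    have h9 : (n : ℝ) - 1 = ((n - 1 : ℕ) : ℝ) := by
      rw [Nat.cast_sub hn1]
      simp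
    rw [h9] at h6
    exact_mod_cast h6
  · intro y
    by_cases hy : ∃ b, y ∈ G b
    · obtain ⟨b0, hb0⟩ := hy
      have h1 := (propG b0 y hb0).1
      refine le_trans ?_ (hlow y h1)
      have h2 : (univ.filter fun b => y ∈ G b).card ≤ (S.filter fun e => y ∈ e).card := by
        refine Finset.card_le_card_of_injOn (fun b => ({b, y} : Finset V)) ?_ ?_
        · intro b hb
          have hb' := (memG b y).1 (Finset.mem_filter.1 (Finset.mem_coe.1 hb)).2
          exact Finset.mem_coe.2 (Finset.mem_filter.2 ⟨hb'.2.2, by simp⟩)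
        · intro b hb b' hb' hbb
          have h3 := (memG b y).1 (Finset.mem_filter.1 (Finset.mem_coe.1 hb)).2
          have h4 : b ∈ ({b', y} : Finset V) := by
            have h5 : ({b, y} : Finset V) = {b', y} := hbb
            rw [← h5]
            exact Finset.mem_insert_self _ _
          rcases Finset.mem_insert.1 h4 with h6 | h6
          · exact h6
          · exact absurd (Finset.mem_singleton.1 h6) h3.2.1
      exact_mod_cast h2
    · have h1 : (univ.filter fun b => y ∈ G b) = ∅ := by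
        rw [Finset.filter_eq_empty_iff]
        intro b _ hb
        exact hy ⟨b, hb⟩
      rw [h1, Finset.card_empty, Nat.cast_zero]
      positivity

end Pool.Agent.Lib.H84S
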