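import Pool.Agent.Lib.BFE.Y2

set_option autoImplicit false
set_option linter.unusedSectionVars false

open Finset
open scoped Classical

namespace Pool.Agent.Lib.H84S

open Pool.Agent.Lib.BFE

private lemma p1_hyp {V : Type} [DecidableEq V] {E E' : Finset (Finset V)} {D : ℕ} (H : Hyp E D)
    (h : E' ⊆ E) : Hyp E' D where
  D_pos := H.D_pos
  size e he := H.size e (h he)
  lin e he f hf := H.lin e (h he) f (h hf)
  vol v := (sum_le_sum_of_subset (filter_subset_filter _ h)).trans (H.vol v)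

/-- Chunk P1 (M): **the first phase of BFE (large edges)**, without any hypothesis on the degrees. (`n + 1 ≤ K0`: as `n` may be taken
as large as we like, `K0` may be too.)

**Proof.** This is the first half of the proof of `BFE.y2_main` (file `BFE/Y2.lean`), copy it. Constants `C = 1000 n²`,
`G = 20 C + 40`, `K0 = 2 * 10^11 n²`, `Ks = 4 K0 + 4 + G + C`, `N` from `x2_par`. For `D ≥ N`: parameters from `x2_par`, `j = i + 1`
from `a5_last`, `χ` from `s8_chain` (state at `b = bs b0 (i+1) ≥ K0`). `χ f ≠ none → f ∈ E` is `State.dom`; `K0 ≤ |f|`: if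
`key f < b + G` then `b ≤ |f|` by `State.s2`, otherwise `|f| ≥ key f ≥ b + G` (`key` is `|f|` or `|f| - C`). `Proper`: `State.proper`.
For an uncoloured `e ∈ E`: `|e| ≤ Ks` and `D ≤ 10^10 |y2_L|` are `hsize` and `hL1` in the proof of `y2_main`. The last claim:
`y1_load` for `E'` in place of `E` (`Hyp E' D` from `Hyp E D` as `E' ⊆ E`: sums over subsets), `U = E'.filter (χ e = none)`,
`hL1`, `hL2` as in `y2_main` (`hL2` from `s10_count` for `E`). -/
theorem p1_phase (n : ℕ) (hn : 1 ≤ n) : ∃ K0 Ks N : ℕ, 3 ≤ K0 ∧ n + 1 ≤ K0 ∧ ∀ (V : Type) [DecidableEq V]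
    (E : Finset (Finset V)) (D : ℕ), N ≤ D → Hyp E D →
    ∃ χ : Finset V → Option (Fin D), (∀ f, χ f ≠ none → f ∈ E ∧ K0 ≤ f.card) ∧ Proper Nb χ ∧
      (∀ e ∈ E, χ e = none → e.card ≤ Ks ∧ D ≤ 10 ^ 10 * (y2_L E D χ e).card) ∧
      ∀ E' ⊆ E, (∀ v, n * (E'.filter fun e => v ∈ e).card ≤ (n - 1) * D) →
        ∀ v, ∑ e ∈ (E'.filter fun e => χ e = none).filter (fun e => v ∈ e),
          1 / ((y2_L E D χ e).card : ℝ) ≤ 1 - 1 / (2 * n) := by
  obtain ⟨C, hC⟩ : ∃ C : ℕ, C = 1000 * n ^ 2 := ⟨_, rfl⟩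
  obtain ⟨G, hG⟩ : ∃ G : ℕ, G = 20 * C + 40 := ⟨_, rfl⟩
  obtain ⟨K0, hK0⟩ : ∃ K0 : ℕ, K0 = 2 * 10 ^ 11 * n ^ 2 := ⟨_, rfl⟩
  have hn2 : 1 ≤ n ^ 2 := Nat.one_le_pow _ _ hn
  have hC1 : 1000 ≤ C := by omega
  have hK1 : 10 ^ 11 ≤ K0 := by
    rw [hK0]
    nlinarith
  have hK2 : 1000 * G ≤ K0 := by
    rw [hK0, hG, hC]
    norm_num
    nlinarith
  have hKC : K0 ≤ 2 * 10 ^ 8 * C := by
    rw [hK0, hC]
    refine le_of_eq ?_
    ring
  obtain ⟨N2, hN2⟩ := x2_par C G K0 hC1 hG hK1 hK2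
  have hnK : n + 1 ≤ K0 := by
    rw [hK0]
    nlinarith
  refine ⟨K0, 4 * K0 + 4 + G + C, N2, by omega, hnK, ?_⟩
  intro V _ E D hD2 H
  obtain ⟨M, R, l, b0, P, hb0⟩ := hN2 D hD2
  obtain ⟨j, hj1, hj2⟩ := a5_last b0 K0 (by omega) (by omega)
  obtain ⟨i, rfl⟩ : ∃ i, j = i + 1 := by
    cases j with
    | zero =>
      exfalso
      have h1 : bs b0 0 = b0 := rfl
      omega
    | succ i => exact ⟨i, rfl⟩
  obtain ⟨χ, hS⟩ := s8_chain H P (i + 1) hj1
  obtain ⟨b, hb⟩ : ∃ b, b = bs b0 (i + 1) := ⟨_, rfl⟩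
  have hsize : ∀ e ∈ E, χ e = none → e.card ≤ 4 * K0 + 4 + G + C := by
    intro e he he0
    rcases lt_or_ge e.card (bs b0 (i + 1) + G) with h | h
    · omega
    · have h1 := (s10_lazy H P i hj1 χ hS he he0 h).1
      omega
  have hL1 : ∀ e ∈ E, χ e = none → D ≤ 10 ^ 10 * (y2_L E D χ e).card := by
    intro e he he0
    have h0 := y2_card E D χ e
    rcases lt_or_ge e.card (bs b0 (i + 1) + G) with h | h
    · have h1 := s9_small H P hKC i hj1 hj2 χ hS he h
      omega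
    · have h1 := (s10_lazy H P i hj1 χ hS he he0 h).2
      omega
  have hL2 : ∀ e ∈ E, (b - 1) * D ≤ (b - 1) * (y2_L E D χ e).card + e.card * D := by
    intro e he
    have h0 := y2_card E D χ e
    have h1 := s10_count H (bs b0 (i + 1)) χ hS he
    rw [← hb] at h1
    have h2 : D ≤ (y2_L E D χ e).card + (E.filter fun g => Nb e g ∧ χ g ≠ none).card := by omega
    have h3 : (b - 1) * D ≤ (b - 1) * (y2_L E D χ e).card +
        (b - 1) * (E.filter fun g => Nb e g ∧ χ g ≠ none).card := by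
      rw [← Nat.mul_add]
      exact Nat.mul_le_mul_left _ h2
    have h4 : e.card * (D - e.card) ≤ e.card * D := Nat.mul_le_mul_left _ (Nat.sub_le _ _)
    omega
  refine ⟨χ, fun f hf => ⟨hS.dom f hf, ?_⟩, hS.proper, fun e he he0 => ⟨hsize e he he0, hL1 e he he0⟩, ?_⟩
  · rcases lt_or_ge (key E D C G b0 f) (bs b0 (i + 1) + G) with h | h
    · exact hj1.trans (hS.s2 f hf h).1
    · have h1 := (a5_key_le E D C G b0 f).1
      omega
  · intro E' hE' hdeg v
    refine y1_load (p1_hyp H hE') n b hn ?_ v (hdeg v) (E'.filter fun e => χ e = none) (filter_subset _ _)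
      (fun e => (y2_L E D χ e).card) ?_ ?_
    · rw [hb, ← hK0]
      exact hj1
    · intro e he
      rw [mem_filter] at he
      exact hL1 e (hE' he.1) he.2
    · intro e he
      rw [mem_filter] at he
      exact hL2 e (hE' he.1)

end Pool.Agent.Lib.H84S
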