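import Pool.Agent.Lib.BFE.Defs

set_option autoImplicit false
set_option linter.unusedSectionVars false

open Finset
open scoped Classical

namespace Pool.Agent.Lib.H84S

open Pool.Agent.Lib.Prob48 (Weights)
open Pool.Agent.Lib.BFE

private theorem r1_Ef {κ : Type} [Fintype κ] [DecidableEq κ] {α : κ → Type} [∀ v, Fintype (α v)]
    (μ : Weights α) (A : (∀ v, α v) → Prop) :
    μ.E (fun ω => if A ω then (1 / 2 : ℝ) else 1) = 1 - μ.P A / 2 := by
  have e : (fun ω => if A ω then (1 / 2 : ℝ) else 1) =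
      fun ω => 1 - (1 / 2 : ℝ) * (if A ω then 1 else 0) := by
    funext ω
    by_cases h : A ω
    · rw [if_pos h, if_pos h]
      norm_num
    · rw [if_neg h, if_neg h]
      norm_num
  rw [e, μ.E_sub, μ.E_const, μ.E_mul_left]
  unfold Weights.P
  ring

private theorem r1_prod {κ : Type} [Fintype κ] [DecidableEq κ] {α : κ → Type}
    [∀ v, Fintype (α v)] (μ : Weights α) {ι : Type} (J : Finset ι) (A : ι → (∀ v, α v) → Prop)
    (S : ι → Finset κ) (hS : ∀ i ∈ J, ∀ j ∈ J, i ≠ j → Disjoint (S i) (S j))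
    (hA : ∀ i ∈ J, DependsOn (A i) (S i : Set κ)) (p : ℝ) (hp0 : 0 ≤ p) (hp1 : p ≤ 1)
    (hp : ∀ i ∈ J, p ≤ μ.P (A i)) :
    μ.E (fun ω => ∏ i ∈ J, if A i ω then (1 / 2 : ℝ) else 1) ≤ (1 - p / 2) ^ J.card := by
  induction J using Finset.induction_on with
  | empty =>
    simp only [Finset.prod_empty, Finset.card_empty, pow_zero]
    exact (μ.E_const 1).le
  | insert a J ha ih =>
    have ih' := ih (fun i hi j hj => hS i (Finset.mem_insert_of_mem hi) j (Finset.mem_insert_of_mem hj))
      (fun i hi => hA i (Finset.mem_insert_of_mem hi))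
      (fun i hi => hp i (Finset.mem_insert_of_mem hi))
    simp only [Finset.prod_insert ha]
    have hdis : ∀ v ∈ S a, v ∉ (⋃ j ∈ J, (S j : Set κ)) := by
      intro v hv hv'
      rw [Set.mem_iUnion₂] at hv'
      obtain ⟨j, hj, hvj⟩ := hv'
      have hne : a ≠ j := by
        rintro rfl
        exact ha hj
      exact Finset.disjoint_left.1 (hS a (Finset.mem_insert_self _ _) j
        (Finset.mem_insert_of_mem hj) hne) hv hvj
    have hf : DependsOn (fun ω => if A a ω then (1 / 2 : ℝ) else 1) (S a : Set κ) := by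
      intro x y hxy
      have h := hA a (Finset.mem_insert_self _ _) hxy
      simp only [h]
    have hg : DependsOn (fun ω => ∏ i ∈ J, if A i ω then (1 / 2 : ℝ) else 1)
        (⋃ j ∈ J, (S j : Set κ)) := by
      intro x y hxy
      refine Finset.prod_congr rfl fun i hi => ?_
      have h := hA i (Finset.mem_insert_of_mem hi) (x := x) (y := y)
        (fun v hv => hxy v (Set.mem_iUnion₂.2 ⟨i, hi, hv⟩))
      simp only [h]
    rw [μ.E_mul_of_dependsOn (S a) _ hdis hf hg, r1_Ef, Finset.card_insert_of_notMem ha, pow_succ,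
      mul_comm ((1 - p / 2) ^ J.card)]
    have h1 := hp a (Finset.mem_insert_self _ _)
    have h2 := μ.P_le_one (A a)
    refine mul_le_mul (by linarith) ih' (μ.E_nonneg fun ω => ?_) (by linarith)
    refine Finset.prod_nonneg fun i _ => ?_
    split_ifs <;> norm_num

/-- Chunk R1 (M): lower tail for independent events.

**Proof.** Let `f_i ω = if A i ω then 1/2 else 1`. `E f_i = 1 - P (A i) / 2 ≤ 1 - p/2`. By induction on `J`
(`Weights.E_mul_of_dependsOn` with `S = S i` and `T = ⋃ S j`; the product over the rest depends only on the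
coordinates of `⋃ S j`) `E (∏ i ∈ J, f_i) = ∏ E f_i ≤ (1 - p/2)^|J| ≤ exp (-(p |J| / 2))` (`Real.one_sub_le_exp_neg` or
`Real.add_one_le_exp`). On the event the product is `(1/2)^k` with `2 k ≤ p |J|`, so at least `exp (- log 2 * p |J| / 2)`.
Markov (`Weights.P_le_of_le`): `P ≤ exp (-(1 - log 2) p |J| / 2) ≤ exp (-(p |J| / 8))` since `log 2 < 3/4`
(`Real.log_two_lt_d9`). -/
theorem r1_lower {κ : Type} [Fintype κ] [DecidableEq κ] {α : κ → Type} [∀ v, Fintype (α v)]
    (μ : Weights α) {ι : Type} (J : Finset ι) (A : ι → (∀ v, α v) → Prop) (S : ι → Finset κ)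
    (hS : ∀ i ∈ J, ∀ j ∈ J, i ≠ j → Disjoint (S i) (S j))
    (hA : ∀ i ∈ J, DependsOn (A i) (S i : Set κ)) (p : ℝ) (hp0 : 0 ≤ p) (hp1 : p ≤ 1)
    (hp : ∀ i ∈ J, p ≤ μ.P (A i)) :
    μ.P (fun ω => 2 * ((J.filter fun i => A i ω).card : ℝ) ≤ p * J.card) ≤
      Real.exp (-(p * J.card / 8)) := by
  have h1 := r1_prod μ J A S hS hA p hp0 hp1 hp
  have hval : ∀ ω, ∏ i ∈ J, (if A i ω then (1 / 2 : ℝ) else 1) =
      Real.exp (-(Real.log 2 * ((J.filter fun i => A i ω).card : ℝ))) := by
    intro ω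
    rw [← Finset.prod_filter_mul_prod_filter_not J (fun i => A i ω)]
    rw [Finset.prod_congr rfl (g := fun _ => (1 / 2 : ℝ))
      (fun i hi => if_pos (Finset.mem_filter.1 hi).2)]
    rw [Finset.prod_congr (s₂ := J.filter fun i => ¬ A i ω) rfl (g := fun _ => (1 : ℝ))
      (fun i hi => if_neg (Finset.mem_filter.1 hi).2)]
    rw [Finset.prod_const, Finset.prod_const_one, mul_one]
    rw [show -(Real.log 2 * ((J.filter fun i => A i ω).card : ℝ)) =
      ((J.filter fun i => A i ω).card : ℝ) * (-Real.log 2) by ring, Real.exp_nat_mul,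
      Real.exp_neg, Real.exp_log (by norm_num)]
    norm_num
  have hc : 0 < Real.exp (-(Real.log 2 * (p * J.card / 2))) := Real.exp_pos _
  have hlog : 0 ≤ Real.log 2 := Real.log_nonneg (by norm_num)
  have h2 := μ.P_le_of_le (A := fun ω => 2 * ((J.filter fun i => A i ω).card : ℝ) ≤ p * J.card)
    (f := fun ω => ∏ i ∈ J, (if A i ω then (1 / 2 : ℝ) else 1))
    (Real.exp (-(Real.log 2 * (p * J.card / 2)))) hc
    (fun ω => by rw [hval]; exact (Real.exp_pos _).le)
    (fun ω hω => by
      rw [hval, Real.exp_le_exp]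
      have h3 : ((J.filter fun i => A i ω).card : ℝ) ≤ p * J.card / 2 := by linarith
      nlinarith [mul_le_mul_of_nonneg_left h3 hlog])
  refine h2.trans ?_
  have h4 : (1 - p / 2) ^ J.card ≤ Real.exp (-(p * J.card / 2)) := by
    have h5 : 1 - p / 2 ≤ Real.exp (-(p / 2)) := by
      have := Real.add_one_le_exp (-(p / 2))
      linarith
    calc (1 - p / 2) ^ J.card ≤ Real.exp (-(p / 2)) ^ J.card :=
          pow_le_pow_left₀ (by linarith) h5 _
      _ = Real.exp (-(p * J.card / 2)) := by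
          rw [← Real.exp_nat_mul]
          congr 1
          ring
  rw [div_le_iff₀ hc, ← Real.exp_add]
  refine (h1.trans h4).trans ?_
  rw [Real.exp_le_exp]
  have h6 : Real.log 2 ≤ 3 / 4 := by
    have := Real.log_two_lt_d9
    linarith
  have h7 : 0 ≤ p * (J.card : ℝ) := mul_nonneg hp0 (Nat.cast_nonneg _)
  nlinarith [mul_le_mul_of_nonneg_left h6 h7]

end Pool.Agent.Lib.H84S
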