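import Pool.Agent.Lib.BFE.Defs
import Pool.Agent.Lib.BFE.RA3

set_option autoImplicit false
set_option linter.unusedSectionVars false

open Finset
open scoped Classical

namespace Pool.Agent.Lib.H84S

open Pool.Agent.Lib.Prob48 (Weights)
open Pool.Agent.Lib.BFE

/-- Chunk R1, second part (S/M): upper tail for coins.

**Proof.** `E (∏ i ∈ S, if x i then 2 else 1) = (1 + p)^|S| ≤ exp (p |S|)` (`ra3_E_prod` with `g i b = if b then 2 else 1` for
`i ∈ S` and `1` otherwise; the sum over `Bool` is `2 p + (1 - p) = 1 + p`). On the event the product is `2^k` with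
`k > 2 p |S|`, at least `exp (2 log 2 p |S|)`, and `2 log 2 - 1 > 1/8` (`Real.log_two_gt_d9`). -/
theorem r1_upper {κ : Type} [Fintype κ] [DecidableEq κ] (p : ℝ) (h0 : 0 ≤ p) (h1 : p ≤ 1)
    (S : Finset κ) :
    (coin (fun _ : κ => p) (fun _ => h0) (fun _ => h1)).P
      (fun x => 2 * p * S.card < ((S.filter fun i => x i = true).card : ℝ)) ≤
      Real.exp (-(p * S.card / 8)) := by
  set c : ℝ := Real.exp (2 * p * S.card * Real.log 2) with hc
  have hc0 : 0 < c := Real.exp_pos _
  have hprod : ∀ x : κ → Bool, (∏ v, (fun (v : κ) (b : Bool) =>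
      (if v ∈ S then (if b = true then (2 : ℝ) else 1) else 1)) v (x v)) =
      2 ^ (S.filter fun i => x i = true).card := by
    intro x
    rw [← Finset.prod_const, Finset.prod_filter]
    have h2 : ∀ v : κ, (if v ∈ S then (if x v = true then (2 : ℝ) else 1) else 1) =
        if v ∈ S then (fun v => if x v = true then (2 : ℝ) else 1) v else 1 := fun v => rfl
    rw [Finset.prod_congr rfl fun v _ => h2 v, Finset.prod_ite_mem, Finset.univ_inter]
  have h3 : (coin (fun _ : κ => p) (fun _ => h0) (fun _ => h1)).P
      (fun x => 2 * p * S.card < ((S.filter fun i => x i = true).card : ℝ)) ≤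
      (coin (fun _ : κ => p) (fun _ => h0) (fun _ => h1)).E (fun x => c⁻¹ *
        ∏ v, (fun (v : κ) (b : Bool) =>
          (if v ∈ S then (if b = true then (2 : ℝ) else 1) else 1)) v (x v)) := by
    refine Weights.E_mono _ fun x => ?_
    rw [hprod x]
    have h4 : 0 ≤ c⁻¹ * (2 : ℝ) ^ (S.filter fun i => x i = true).card := by positivity
    split_ifs with h5
    · rw [inv_mul_eq_div, le_div_iff₀ hc0, one_mul]
      have h6 : (2 : ℝ) ^ (S.filter fun i => x i = true).card =
          Real.exp (((S.filter fun i => x i = true).card : ℝ) * Real.log 2) := by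
        rw [Real.exp_nat_mul, Real.exp_log (by norm_num)]
      rw [h6, hc]
      apply Real.exp_le_exp.2
      exact mul_le_mul_of_nonneg_right h5.le (Real.log_nonneg (by norm_num))
    · exact h4
  rw [Weights.E_mul_left, ra3_E_prod (coin (fun _ : κ => p) (fun _ => h0) (fun _ => h1))
    (fun (v : κ) (b : Bool) => (if v ∈ S then (if b = true then (2 : ℝ) else 1) else 1))] at h3
  have h7 : ∀ v : κ, (∑ a : Bool, (coin (fun _ : κ => p) (fun _ => h0) (fun _ => h1)).w v a *
      (if v ∈ S then (if a = true then (2 : ℝ) else 1) else 1)) =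
      if v ∈ S then 1 + p else 1 := by
    intro v
    rw [Fintype.sum_bool]
    have w1 : (coin (fun _ : κ => p) (fun _ => h0) (fun _ => h1)).w v true = p := by
      unfold coin
      simp
    have w2 : (coin (fun _ : κ => p) (fun _ => h0) (fun _ => h1)).w v false = 1 - p := by
      unfold coin
      simp
    rw [w1, w2]
    by_cases hS : v ∈ S
    · rw [if_pos hS, if_pos hS, if_pos hS, if_pos rfl, if_neg (by decide)]
      ring
    · rw [if_neg hS, if_neg hS, if_neg hS]
      ring
  rw [Finset.prod_congr rfl fun v _ => h7 v, Finset.prod_ite_mem, Finset.univ_inter,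
    Finset.prod_const] at h3
  refine h3.trans ?_
  have h8 : (1 + p) ^ S.card ≤ Real.exp (S.card * p) := by
    rw [Real.exp_nat_mul]
    refine pow_le_pow_left₀ (by linarith) ?_ _
    linarith [Real.add_one_le_exp p]
  have h9 : c⁻¹ = Real.exp (-(2 * p * S.card * Real.log 2)) := by
    rw [hc, Real.exp_neg]
  calc c⁻¹ * (1 + p) ^ S.card ≤ c⁻¹ * Real.exp (S.card * p) :=
        mul_le_mul_of_nonneg_left h8 (by positivity)
    _ = Real.exp (-(2 * p * S.card * Real.log 2) + S.card * p) := by
        rw [h9, Real.exp_add]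
    _ ≤ Real.exp (-(p * S.card / 8)) := by
        apply Real.exp_le_exp.2
        have h10 := Real.log_two_gt_d9
        have h11 : 0 ≤ p * S.card := mul_nonneg h0 (Nat.cast_nonneg _)
        nlinarith

end Pool.Agent.Lib.H84S
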