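import Pool.Agent.Lib.BFE.RA3
import Pool.Agent.Lib.H84S.R1
import Pool.Agent.Lib.H84S.R1B

set_option autoImplicit false
set_option linter.unusedSectionVars false

open Finset
open scoped Classical

namespace Pool.Agent.Lib.H84S

open Pool.Agent.Lib.Prob48 (Weights)
open Pool.Agent.Lib.BFE

/-- the random set of colours at `v` -/
def zz {V C : Type} [Fintype C] (x : V × C → Bool) (v : V) : Finset C :=
  univ.filter fun c => x (v, c) = true

variable {V C : Type} [Fintype V] [DecidableEq V] [Fintype C] [DecidableEq C]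

private theorem R2_S (x : V × C → Bool) (v : V) :
    ((({v} : Finset V) ×ˢ (univ : Finset C)).filter fun i => x i = true).card = (zz x v).card := by
  refine (Finset.card_bij (fun c _ => (v, c)) ?_ ?_ ?_).symm
  · intro c hc
    simp only [zz, Finset.mem_filter, Finset.mem_univ, true_and] at hc
    rw [Finset.mem_filter, Finset.mem_product, Finset.mem_singleton]
    exact ⟨⟨rfl, Finset.mem_univ _⟩, hc⟩
  · intro c _ c' _ h
    exact (Prod.mk.inj h).2
  · rintro ⟨w, c⟩ hz
    rw [Finset.mem_filter, Finset.mem_product, Finset.mem_singleton] at hz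
    obtain ⟨⟨hw, -⟩, hc⟩ := hz
    have hw' : w = v := hw
    subst hw'
    refine ⟨c, ?_, rfl⟩
    simp only [zz, Finset.mem_filter, Finset.mem_univ, true_and]
    exact hc

/-- Chunk R2 (M): the four tail bounds; first: `|Z v|` is at most twice its mean.

**Proof.** `r1_upper` for `S = {v} × univ` (`S.card = |C|`; `(S.filter ..).card = (zz x v).card` by the bijection
`(v, c) ↔ c`). -/
theorem r2_a (p : ℝ) (h0 : 0 ≤ p) (h1 : p ≤ 1) (v : V) :
    (coin (fun _ : V × C => p) (fun _ => h0) (fun _ => h1)).P
      (fun x => 2 * p * Fintype.card C < ((zz x v).card : ℝ)) ≤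
      Real.exp (-(p * Fintype.card C / 8)) := by
  have h := r1_upper p h0 h1 (({v} : Finset V) ×ˢ (univ : Finset C))
  have hS : (({v} : Finset V) ×ˢ (univ : Finset C)).card = Fintype.card C := by
    rw [Finset.card_product, Finset.card_singleton, one_mul, Finset.card_univ]
  rw [hS] at h
  refine le_trans (le_of_eq ?_) h
  refine Weights.P_congr _ fun x => ?_
  rw [R2_S x v]

/-- **Proof.** `r1_lower` with `ι = C`, `J = P`, `A c x = (x (v, c) ∧ x (w, c))`, `S c = {(v, c), (w, c)}` (disjoint for
different `c`), `P (A c) = p²` (`ra3_coin_true` for the two element set, `v ≠ w`). -/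
theorem r2_b (p : ℝ) (h0 : 0 ≤ p) (h1 : p ≤ 1) (v w : V) (hvw : v ≠ w) (P : Finset C) :
    (coin (fun _ : V × C => p) (fun _ => h0) (fun _ => h1)).P
      (fun x => 2 * ((zz x v ∩ zz x w ∩ P).card : ℝ) ≤ p ^ 2 * P.card) ≤
      Real.exp (-(p ^ 2 * P.card / 8)) := by
  have h := r1_lower (coin (fun _ : V × C => p) (fun _ => h0) (fun _ => h1)) P
    (fun c x => x (v, c) = true ∧ x (w, c) = true) (fun c => {(v, c), (w, c)}) ?_ ?_ (p ^ 2) (by positivity)
    (pow_le_one₀ h0 h1) ?_
  · refine le_trans (le_of_eq ?_) h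
    refine Weights.P_congr _ fun x => ?_
    have e : (zz x v ∩ zz x w ∩ P).card =
        (@Finset.filter C (fun c => x (v, c) = true ∧ x (w, c) = true) (fun _ => Classical.propDecidable _) P).card := by
      congr 1
      ext c
      simp only [zz, Finset.mem_inter, Finset.mem_filter, Finset.mem_univ, true_and]
      exact and_comm
    rw [e]
  · intro c _ c' _ hcc
    rw [Finset.disjoint_left]
    intro z hz hz'
    rw [Finset.mem_insert, Finset.mem_singleton] at hz hz'
    apply hcc
    have e1 : z.2 = c := by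
      rcases hz with h | h <;> rw [h]
    have e2 : z.2 = c' := by
      rcases hz' with h | h <;> rw [h]
    exact e1.symm.trans e2
  · intro c _ x y hxy
    have e1 := hxy (v, c) (by simp)
    have e2 := hxy (w, c) (by simp)
    show (x (v, c) = true ∧ x (w, c) = true) = (y (v, c) = true ∧ y (w, c) = true)
    rw [e1, e2]
  · intro c _
    have e := ra3_coin_true (fun _ : V × C => p) (fun _ => h0) (fun _ => h1) {(v, c), (w, c)}
    rw [Finset.prod_const, Finset.card_pair (fun h => hvw (Prod.mk.inj h).1)] at e
    refine e.symm.le.trans (le_of_eq (Weights.P_congr _ fun x => ?_))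
    simp

/-- **Proof.** `r1_lower` with `ι = V`, `J = G`, `A y x = (x (y, a) = true)`, `S y = {(y, a)}`, `P (A y) = p`
(`ra3_coin_true`). -/
theorem r2_c (p : ℝ) (h0 : 0 ≤ p) (h1 : p ≤ 1) (G : Finset V) (a : C) :
    (coin (fun _ : V × C => p) (fun _ => h0) (fun _ => h1)).P
      (fun x => 2 * ((G.filter fun y => a ∈ zz x y).card : ℝ) ≤ p * G.card) ≤
      Real.exp (-(p * G.card / 8)) := by
  have h := r1_lower (coin (fun _ : V × C => p) (fun _ => h0) (fun _ => h1)) G
    (fun y x => x (y, a) = true) (fun y => {(y, a)}) ?_ ?_ p h0 h1 ?_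
  · refine le_trans (le_of_eq ?_) h
    refine Weights.P_congr _ fun x => ?_
    have e : (G.filter fun y => a ∈ zz x y).card = 
        (@Finset.filter V (fun y => x (y, a) = true) (fun _ => Classical.propDecidable _) G).card := by
      congr 1
      ext c
      simp only [zz, Finset.mem_filter, Finset.mem_univ, true_and]
    rw [e]
  · intro c _ c' _ hcc
    rw [Finset.disjoint_singleton]
    exact fun h => hcc (Prod.mk.inj h).1
  · intro c _ x y hxy
    have e1 := hxy (c, a) (by simp)
    show (x (c, a) = true) = (y (c, a) = true)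
    rw [e1]
  · intro c _
    have e := ra3_coin_true (fun _ : V × C => p) (fun _ => h0) (fun _ => h1) {(c, a)}
    rw [Finset.prod_const, Finset.card_singleton, pow_one] at e
    refine e.symm.le.trans (le_of_eq (Weights.P_congr _ fun x => ?_))
    simp

/-- **Proof.** `r1_lower` with `ι = V × C`, `J = Y ×ˢ Q`, `A z x = (x z = true)`, `S z = {z}`, `P (A z) = p`;
`∑ y ∈ Y, (zz x y ∩ Q).card` is the number of `z ∈ Y ×ˢ Q` with `x z = true`
(`Finset.card_filter_product`-like, `card_sigma` or `sum_comm`). -/
theorem r2_d (p : ℝ) (h0 : 0 ≤ p) (h1 : p ≤ 1) (Y : Finset V) (Q : Finset C) :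
    (coin (fun _ : V × C => p) (fun _ => h0) (fun _ => h1)).P
      (fun x => 2 * (∑ y ∈ Y, ((zz x y ∩ Q).card : ℝ)) ≤ p * (Y.card * Q.card)) ≤
      Real.exp (-(p * (Y.card * Q.card) / 8)) := by
  have h := r1_lower (coin (fun _ : V × C => p) (fun _ => h0) (fun _ => h1)) (Y ×ˢ Q)
    (fun z x => x z = true) (fun z => {z}) ?_ ?_ p h0 h1 ?_
  · rw [Finset.card_product, Nat.cast_mul] at h
    refine le_trans (le_of_eq ?_) h
    refine Weights.P_congr _ fun x => ?_
    have e : ∑ y ∈ Y, ((zz x y ∩ Q).card : ℝ) =
        ((@Finset.filter (V × C) (fun z => x z = true) (fun _ => Classical.propDecidable _) (Y ×ˢ Q)).card : ℝ) := by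
      rw [Finset.card_filter, Finset.sum_product, Nat.cast_sum]
      refine Finset.sum_congr rfl fun y _ => ?_
      rw [← @Finset.card_filter C (fun c => x (y, c) = true) (fun _ => Classical.propDecidable _)]
      congr 2
      ext c
      simp only [zz, Finset.mem_inter, Finset.mem_filter, Finset.mem_univ, true_and]
      exact and_comm
    rw [e]
  · intro c _ c' _ hcc
    rw [Finset.disjoint_singleton]
    exact hcc
  · intro c _ x y hxy
    have e1 := hxy c (by simp)
    show (x c = true) = (y c = true)
    rw [e1]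
  · intro c _
    have e := ra3_coin_true (fun _ : V × C => p) (fun _ => h0) (fun _ => h1) {c}
    rw [Finset.prod_const, Finset.card_singleton, pow_one] at e
    refine e.symm.le.trans (le_of_eq (Weights.P_congr _ fun x => ?_))
    simp

end Pool.Agent.Lib.H84S
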