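import Pool.Agent.Lib.H84S.R2

set_option autoImplicit false
set_option linter.unusedSectionVars false

open Finset
open scoped Classical

namespace Pool.Agent.Lib.H84S

open Pool.Agent.Lib.Prob48 (Weights)
open Pool.Agent.Lib.BFE

variable {V : Type} [Fintype V] [DecidableEq V]

/-- the bad event at `v` (`p` density, `g`, `k` constants, `G v` the ends of the edges of the special graph at `v`,
`P v` the colours that may be protected at `v`) -/
def Bad {D : ℕ} (p g k : ℝ) (G : V → Finset V) (P : V → Finset (Fin D)) (v : V)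
    (x : V × Fin D → Bool) : Prop :=
  2 * p * D < ((zz x v).card : ℝ) ∨
  (∃ w ∈ G v, 2 * ((zz x v ∩ zz x w ∩ P v).card : ℝ) ≤ p ^ 2 * (P v).card) ∨
  (g * D ≤ ((G v).card : ℝ) ∧ ∃ a ∈ (univ : Finset (Fin D)),
    2 * (((G v).filter fun y => a ∈ zz x y).card : ℝ) ≤ p * (G v).card) ∨
  (∃ z ∈ ((G v).powerset ×ˢ (univ : Finset (Fin D)).powerset).filter fun z =>
    k * D ≤ ((z.1).card : ℝ) ∧ k * D ≤ ((z.2).card : ℝ),
    2 * (∑ y ∈ z.1, ((zz x y ∩ z.2).card : ℝ)) ≤ p * (z.1.card * z.2.card))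

/-- Chunk R3 (M): the bad event is unlikely.

**Proof.** `Weights.P_or_le` three times and the union bound `Weights.P_exists_le`. First event: `r2_a`
(`Fintype.card (Fin D) = D`). Second: at most `D` vertices `w`, each `≤ exp (-(p² |P v| / 8)) ≤ exp (-(p² D / 16))` (`r2_b`,
`D ≤ 2 |P v|`, `w ≠ v`). Third: if `g D ≤ |G v|` it is a union of `D` events, each `≤ exp (-(p |G v| / 8)) ≤ exp (-(p g D / 8))`
(`r2_c`); otherwise it is impossible (`P_mono` to `False`, or `P = 0`). Fourth: at most `2^|G v| * 2^D ≤ 4^D` pairs, each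
`≤ exp (-(p (|Y| |Q|) / 8)) ≤ exp (-(p k² D² / 8))` (`r2_d`, `|Y| |Q| ≥ (k D)²`). -/
theorem r3_bad (D : ℕ) (p g k : ℝ) (hp0 : 0 < p) (hp1 : p ≤ 1) (hg : 0 < g) (hk : 0 < k)
    (G : V → Finset V) (P : V → Finset (Fin D)) (v : V) (hG : (G v).card ≤ D) (hv : v ∉ G v)
    (hP : D ≤ 2 * (P v).card) :
    (coin (fun _ : V × Fin D => p) (fun _ => hp0.le) (fun _ => hp1)).P (fun x => Bad p g k G P v x) ≤
      Real.exp (-(p * D / 8)) + D * Real.exp (-(p ^ 2 * D / 16)) + D * Real.exp (-(p * g * D / 8)) +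
        4 ^ D * Real.exp (-(p * k ^ 2 * D ^ 2 / 8)) := by
  have hD0 : (0 : ℝ) ≤ D := Nat.cast_nonneg _
  have hGR : ((G v).card : ℝ) ≤ D := by exact_mod_cast hG
  have hPR : (D : ℝ) ≤ 2 * ((P v).card : ℝ) := by exact_mod_cast hP
  -- first event
  have h1 : (coin (fun _ : V × Fin D => p) (fun _ => hp0.le) (fun _ => hp1)).P
      (fun x => 2 * p * D < ((zz x v).card : ℝ)) ≤ Real.exp (-(p * D / 8)) := by
    have h := r2_a (C := Fin D) p hp0.le hp1 v
    simpa only [Fintype.card_fin] using h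
  -- second event
  have h2 : (coin (fun _ : V × Fin D => p) (fun _ => hp0.le) (fun _ => hp1)).P
      (fun x => ∃ w ∈ G v, 2 * ((zz x v ∩ zz x w ∩ P v).card : ℝ) ≤ p ^ 2 * (P v).card) ≤
      D * Real.exp (-(p ^ 2 * D / 16)) := by
    refine (Weights.P_exists_le _ (G v) _).trans ?_
    refine (Finset.sum_le_card_nsmul _ _ (Real.exp (-(p ^ 2 * D / 16))) ?_).trans ?_
    · intro w hw
      refine (r2_b p hp0.le hp1 v w (fun h => hv (h ▸ hw)) (P v)).trans ?_
      refine Real.exp_le_exp.2 ?_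
      have h := mul_le_mul_of_nonneg_left hPR (sq_nonneg p)
      linarith
    · rw [nsmul_eq_mul]
      exact mul_le_mul_of_nonneg_right hGR (Real.exp_pos _).le
  -- third event
  have h3 : (coin (fun _ : V × Fin D => p) (fun _ => hp0.le) (fun _ => hp1)).P
      (fun x => g * D ≤ ((G v).card : ℝ) ∧ ∃ a ∈ (univ : Finset (Fin D)),
        2 * (((G v).filter fun y => a ∈ zz x y).card : ℝ) ≤ p * (G v).card) ≤
      D * Real.exp (-(p * g * D / 8)) := by
    by_cases hgd : g * D ≤ ((G v).card : ℝ)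
    · refine (Weights.P_mono _ (B := fun x => ∃ a ∈ (univ : Finset (Fin D)),
        2 * (((G v).filter fun y => a ∈ zz x y).card : ℝ) ≤ p * (G v).card)
        fun x hx => hx.2).trans ?_
      refine (Weights.P_exists_le _ (univ : Finset (Fin D)) _).trans ?_
      refine (Finset.sum_le_card_nsmul _ _ (Real.exp (-(p * g * D / 8))) ?_).trans ?_
      · intro a _
        refine (r2_c p hp0.le hp1 (G v) a).trans ?_
        refine Real.exp_le_exp.2 ?_
        have h := mul_le_mul_of_nonneg_left hgd hp0.le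
        linarith
      · rw [nsmul_eq_mul, Finset.card_univ, Fintype.card_fin]
    · refine (Weights.P_mono _ (B := fun _ => False) fun x hx => hgd hx.1).trans ?_
      rw [Weights.P_false]
      positivity
  -- fourth event
  have h4 : (coin (fun _ : V × Fin D => p) (fun _ => hp0.le) (fun _ => hp1)).P
      (fun x => ∃ z ∈ ((G v).powerset ×ˢ (univ : Finset (Fin D)).powerset).filter fun z =>
        k * D ≤ ((z.1).card : ℝ) ∧ k * D ≤ ((z.2).card : ℝ),
        2 * (∑ y ∈ z.1, ((zz x y ∩ z.2).card : ℝ)) ≤ p * (z.1.card * z.2.card)) ≤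
      4 ^ D * Real.exp (-(p * k ^ 2 * D ^ 2 / 8)) := by
    refine (Weights.P_exists_le _ _ _).trans ?_
    refine (Finset.sum_le_card_nsmul _ _ (Real.exp (-(p * k ^ 2 * D ^ 2 / 8))) ?_).trans ?_
    · intro z hz
      obtain ⟨_, hz1, hz2⟩ := Finset.mem_filter.1 hz
      refine (r2_d p hp0.le hp1 z.1 z.2).trans ?_
      refine Real.exp_le_exp.2 ?_
      have hkD : 0 ≤ k * D := mul_nonneg hk.le hD0
      have h := mul_le_mul_of_nonneg_left (mul_le_mul hz1 hz2 hkD (hkD.trans hz1)) hp0.le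
      have e : p * (k * D * (k * D)) = p * k ^ 2 * D ^ 2 := by ring
      rw [e] at h
      linarith
    · rw [nsmul_eq_mul]
      refine mul_le_mul_of_nonneg_right ?_ (Real.exp_pos _).le
      have hc : (((G v).powerset ×ˢ (univ : Finset (Fin D)).powerset).filter fun z =>
          k * D ≤ ((z.1).card : ℝ) ∧ k * D ≤ ((z.2).card : ℝ)).card ≤ 4 ^ D := by
        refine (Finset.card_filter_le _ _).trans ?_
        rw [Finset.card_product, Finset.card_powerset, Finset.card_powerset, Finset.card_univ,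
          Fintype.card_fin]
        calc 2 ^ (G v).card * 2 ^ D ≤ 2 ^ D * 2 ^ D :=
              Nat.mul_le_mul_right _ (Nat.pow_le_pow_right (by norm_num) hG)
          _ = 4 ^ D := by
              rw [← mul_pow]
              norm_num
      exact_mod_cast hc
  have k1 := Weights.P_or_le (coin (fun _ : V × Fin D => p) (fun _ => hp0.le) (fun _ => hp1))
    (fun x => g * D ≤ ((G v).card : ℝ) ∧ ∃ a ∈ (univ : Finset (Fin D)),
        2 * (((G v).filter fun y => a ∈ zz x y).card : ℝ) ≤ p * (G v).card)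
    (fun x => ∃ z ∈ ((G v).powerset ×ˢ (univ : Finset (Fin D)).powerset).filter fun z =>
        k * D ≤ ((z.1).card : ℝ) ∧ k * D ≤ ((z.2).card : ℝ),
        2 * (∑ y ∈ z.1, ((zz x y ∩ z.2).card : ℝ)) ≤ p * (z.1.card * z.2.card))
  have k2 := Weights.P_or_le (coin (fun _ : V × Fin D => p) (fun _ => hp0.le) (fun _ => hp1))
    (fun x => ∃ w ∈ G v, 2 * ((zz x v ∩ zz x w ∩ P v).card : ℝ) ≤ p ^ 2 * (P v).card)
    (fun x => (g * D ≤ ((G v).card : ℝ) ∧ ∃ a ∈ (univ : Finset (Fin D)),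
        2 * (((G v).filter fun y => a ∈ zz x y).card : ℝ) ≤ p * (G v).card) ∨
      (∃ z ∈ ((G v).powerset ×ˢ (univ : Finset (Fin D)).powerset).filter fun z =>
        k * D ≤ ((z.1).card : ℝ) ∧ k * D ≤ ((z.2).card : ℝ),
        2 * (∑ y ∈ z.1, ((zz x y ∩ z.2).card : ℝ)) ≤ p * (z.1.card * z.2.card)))
  have k3 := Weights.P_or_le (coin (fun _ : V × Fin D => p) (fun _ => hp0.le) (fun _ => hp1))
    (fun x => 2 * p * D < ((zz x v).card : ℝ))
    (fun x => (∃ w ∈ G v, 2 * ((zz x v ∩ zz x w ∩ P v).card : ℝ) ≤ p ^ 2 * (P v).card) ∨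
      (g * D ≤ ((G v).card : ℝ) ∧ ∃ a ∈ (univ : Finset (Fin D)),
        2 * (((G v).filter fun y => a ∈ zz x y).card : ℝ) ≤ p * (G v).card) ∨
      (∃ z ∈ ((G v).powerset ×ˢ (univ : Finset (Fin D)).powerset).filter fun z =>
        k * D ≤ ((z.1).card : ℝ) ∧ k * D ≤ ((z.2).card : ℝ),
        2 * (∑ y ∈ z.1, ((zz x y ∩ z.2).card : ℝ)) ≤ p * (z.1.card * z.2.card)))
  have k4 : (coin (fun _ : V × Fin D => p) (fun _ => hp0.le) (fun _ => hp1)).P
      (fun x => Bad p g k G P v x) =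
      (coin (fun _ : V × Fin D => p) (fun _ => hp0.le) (fun _ => hp1)).P
      (fun x => 2 * p * D < ((zz x v).card : ℝ) ∨
        (∃ w ∈ G v, 2 * ((zz x v ∩ zz x w ∩ P v).card : ℝ) ≤ p ^ 2 * (P v).card) ∨
        (g * D ≤ ((G v).card : ℝ) ∧ ∃ a ∈ (univ : Finset (Fin D)),
          2 * (((G v).filter fun y => a ∈ zz x y).card : ℝ) ≤ p * (G v).card) ∨
        (∃ z ∈ ((G v).powerset ×ˢ (univ : Finset (Fin D)).powerset).filter fun z =>
          k * D ≤ ((z.1).card : ℝ) ∧ k * D ≤ ((z.2).card : ℝ),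
          2 * (∑ y ∈ z.1, ((zz x y ∩ z.2).card : ℝ)) ≤ p * (z.1.card * z.2.card))) := rfl
  rw [k4]
  linarith

end Pool.Agent.Lib.H84S
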