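import Pool.Agent.Lib.H84S.R3

set_option autoImplicit false
set_option linter.unusedSectionVars false

open Finset
open scoped Classical

namespace Pool.Agent.Lib.H84S

open Pool.Agent.Lib.Prob48 (Weights)
open Pool.Agent.Lib.BFE

variable {V : Type} [Fintype V] [DecidableEq V]

private theorem r4_imp {D : ℕ} (p g k : ℝ) (G : V → Finset V) (P : V → Finset (Fin D)) (v : V)
    (x x' : V × Fin D → Bool) (h : ∀ u ∈ insert v (G v), zz x u = zz x' u) :
    Bad p g k G P v x → Bad p g k G P v x' := by
  have hv : zz x v = zz x' v := h v (mem_insert_self _ _)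
  have hG : ∀ w ∈ G v, zz x w = zz x' w := fun w hw => h w (mem_insert_of_mem hw)
  rintro (h1 | ⟨w, hw, h2⟩ | ⟨h3, a, ha, h4⟩ | ⟨z, hz, h5⟩)
  · left
    rw [← hv]
    exact h1
  · right
    left
    refine ⟨w, hw, ?_⟩
    rw [← hv, ← hG w hw]
    exact h2
  · right
    right
    left
    refine ⟨h3, a, ha, ?_⟩
    have e : ((G v).filter fun y => a ∈ zz x' y) = (G v).filter fun y => a ∈ zz x y :=
      filter_congr fun y hy => by rw [hG y hy]
    rw [e]
    exact h4
  · right
    right
    right
    refine ⟨z, hz, ?_⟩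
    have hz1 : z.1 ⊆ G v := mem_powerset.1 (mem_product.1 (mem_filter.1 hz).1).1
    have e : (∑ y ∈ z.1, ((zz x' y ∩ z.2).card : ℝ)) = ∑ y ∈ z.1, ((zz x y ∩ z.2).card : ℝ) :=
      sum_congr rfl fun y hy => by rw [hG y (hz1 hy)]
    rw [e]
    exact h5

/-- Chunk R4 (M): locality of the bad events.

**Proof.** `Bad .. v x` is a statement about the sets `zz x v` and `zz x w`, `w ∈ G v`; if `x` and `x'` agree on all
`(u, c)` with `u ∈ insert v (G v)`, then `zz x u = zz x' u` for these `u`. (The sums over `z.1 ⊆ G v`, the filter over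
`G v`.) -/
theorem r4_dep {D : ℕ} (p g k : ℝ) (G : V → Finset V) (P : V → Finset (Fin D)) (v : V) :
    DependsOn (fun x : V × Fin D → Bool => Bad p g k G P v x)
      (((insert v (G v)) ×ˢ (univ : Finset (Fin D)) : Finset (V × Fin D)) : Set (V × Fin D)) := by
  intro x x' h
  have hz : ∀ u ∈ insert v (G v), zz x u = zz x' u := by
    intro u hu
    unfold zz
    refine filter_congr fun c _ => ?_
    rw [h (u, c) (by simpa using hu)]
  exact propext ⟨r4_imp p g k G P v x x' hz, r4_imp p g k G P v x' x fun u hu => (hz u hu).symm⟩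

end Pool.Agent.Lib.H84S
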